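import Pool.Agent.H89.FrobD.Part

/-!
# The splitting type of a prime is the cycle type of its Frobenius: final forms

* `pow_mod_three_iff`: `p ^ n ≡ 1` modulo `3` if and only if the `n`-th power of the Frobenius fixes `ω`;
* `abs_part`: the residue degrees of the primes of `K` above `p` are the parts of the cycle type of the Frobenius on
  the embeddings of `K`;
* `rel_part`: the relative version.
-/

set_option autoImplicit false
set_option linter.unusedSectionVars false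

open scoped Pointwise NumberField
open MulAction Ideal Finset Filter NumberField IsDedekindDomain

namespace Pool.Agent.H89.FrobD

variable {L : Type} [Field L] [NumberField L] [IsGalois ℚ L]

theorem pow_mod_three_conv {p : ℕ} (hp : p.Prime) (hp3 : 3 < p) (hd : ¬ (p : ℤ) ∣ NumberField.discr L)
    (g : Gal(L/ℚ)) (hE : (setE L (Subgroup.zpowers g) p).Nonempty) (n : ℕ) (w : L) (hw : w ^ 2 + w + 1 = 0)
    (hn : p ^ n % 3 = 1) : (g ^ n) w = w := by
  have : Fact p.Prime := ⟨hp⟩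
  obtain ⟨φ, τ, hτ, hφ⟩ := exists_frob L hd (AlgebraicClosure (ZMod p)) (Subgroup.zpowers g) hE
  have hint : IsIntegral ℤ w := by
    refine ⟨Polynomial.X ^ 2 + Polynomial.X + 1, ?_, ?_⟩
    · have : (Polynomial.X ^ 2 + Polynomial.X + 1 : Polynomial ℤ) =
          Polynomial.X ^ 2 + (Polynomial.X + 1) := by ring
      rw [this]
      refine Polynomial.monic_X_pow_add ?_
      have h1 : (Polynomial.X + 1 : Polynomial ℤ).degree = 1 := by
        have := Polynomial.degree_X_add_C (1 : ℤ)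
        simpa using this
      rw [h1]
      norm_num
    · simpa using hw
  set W : 𝓞 L := ⟨w, hint⟩ with hW
  have hWe : W ^ 2 + W + 1 = 0 := by
    apply NumberField.RingOfIntegers.ext
    push_cast
    exact hw
  have h4 : φ W ^ 2 + φ W + 1 = 0 := by
    have := congrArg φ hWe
    simpa using this
  have hne3 : (3 : AlgebraicClosure (ZMod p)) ≠ 0 := by
    intro h
    have h5 : ((3 : ℕ) : AlgebraicClosure (ZMod p)) = 0 := by exact_mod_cast h
    rw [CharP.cast_eq_zero_iff (AlgebraicClosure (ZMod p)) p] at h5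
    have := Nat.le_of_dvd (by norm_num) h5
    omega
  have hu3 : φ W ^ 3 = 1 := by
    have : φ W ^ 3 - 1 = (φ W - 1) * (φ W ^ 2 + φ W + 1) := by ring
    rw [h4, mul_zero] at this
    exact sub_eq_zero.1 this
  have hu1 : φ W ≠ 1 := by
    intro h
    rw [h] at h4
    exact hne3 (by linear_combination h4)
  have hu0 : φ W ≠ 0 := by
    intro h
    rw [h] at h4
    simp at h4
  have hpow : ∀ (k : ℕ) (x : 𝓞 L), φ (τ ^ k • x) = φ x ^ p ^ k := by
    intro k
    induction k with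
    | zero => intro x; simp
    | succ k ih =>
      intro x
      have h5 : τ ^ (k + 1) • x = τ ^ k • (τ • x) := by rw [pow_succ, mul_smul]
      rw [h5, ih, hφ, ← pow_mul, ← pow_succ']
  have h5 : φ (τ ^ n • W) = φ W := by
    rw [hpow]
    have h6 := Nat.div_add_mod (p ^ n) 3
    rw [hn] at h6
    rw [← h6, pow_succ, pow_mul, hu3, one_pow, one_mul]
  have hτe : (τ ^ n • W) ^ 2 + τ ^ n • W + 1 = 0 := by
    have := congrArg (fun x : 𝓞 L => τ ^ n • x) hWe
    simpa [smul_add, smul_pow'] using this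
  have hfix : τ ^ n • W = W := by
    have h1 : (τ ^ n • W - W) * (τ ^ n • W + W + 1) = 0 := by linear_combination hτe - hWe
    rcases mul_eq_zero.1 h1 with h | h
    · exact sub_eq_zero.1 h
    · exfalso
      have h6 := congrArg φ h
      rw [map_add, map_add, map_one, map_zero, h5] at h6
      -- 2 W + 1 = 0 and W ^ 2 + W + 1 = 0
      have h7 : (3 : AlgebraicClosure (ZMod p)) = 0 := by linear_combination 4 * h4 - (2 * φ W + 1) * h6
      exact hne3 h7
  have h6 : g ∈ Subgroup.zpowers τ := by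
    rw [hτ]
    exact Subgroup.mem_zpowers g
  obtain ⟨k, hk⟩ := Subgroup.mem_zpowers_iff.1 h6
  have h7 : g ^ n ∈ Subgroup.zpowers (τ ^ n) := by
    rw [Subgroup.mem_zpowers_iff]
    refine ⟨k, ?_⟩
    rw [← hk, ← zpow_natCast, ← zpow_natCast, ← zpow_mul, ← zpow_mul, mul_comm]
  have h8 : Subgroup.zpowers (τ ^ n) ≤ stabilizer Gal(L/ℚ) W := by
    rw [Subgroup.zpowers_le, MulAction.mem_stabilizer_iff]
    exact hfix
  have h9 := h8 h7
  rw [MulAction.mem_stabilizer_iff] at h9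
  exact congrArg (fun x : 𝓞 L => (x : L)) h9

/-- `p ^ n` modulo three -/
theorem pow_mod_three_iff {p : ℕ} (hp : p.Prime) (hp3 : 3 < p) (hd : ¬ (p : ℤ) ∣ NumberField.discr L)
    (g : Gal(L/ℚ)) (hE : (setE L (Subgroup.zpowers g) p).Nonempty) (n : ℕ) (w : L) (hw : w ^ 2 + w + 1 = 0) :
    p ^ n % 3 = 1 ↔ (g ^ n) w = w :=
  ⟨pow_mod_three_conv hp hp3 hd g hE n w hw, H89AB.pow_mod_three hp hp3 hd g hE n w hw⟩

theorem pow_mod_three_ne {p : ℕ} (hp : p.Prime) (hp3 : 3 < p) (n : ℕ) (h : p ^ n % 3 ≠ 1) : p ^ n % 3 = 2 := by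
  have h3 : ¬ 3 ∣ p ^ n := by
    intro h
    have h1 := Nat.Prime.dvd_of_dvd_pow Nat.prime_three h
    have := (Nat.prime_dvd_prime_iff_eq Nat.prime_three hp).1 h1
    omega
  omega

/-- modulo three, the other case -/
theorem pow_mod_three_iff' {p : ℕ} (hp : p.Prime) (hp3 : 3 < p) (hd : ¬ (p : ℤ) ∣ NumberField.discr L)
    (g : Gal(L/ℚ)) (hE : (setE L (Subgroup.zpowers g) p).Nonempty) (n : ℕ) (w : L) (hw : w ^ 2 + w + 1 = 0) :
    p ^ n % 3 = 2 ↔ (g ^ n) w ≠ w := by
  rw [Ne, ← pow_mod_three_iff hp hp3 hd g hE n w hw]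
  constructor
  · intro h
    omega
  · exact pow_mod_three_ne hp hp3 n

/-- a multiset of positive numbers from its counts -/
theorem multiset_eq_of_mul {s t : Multiset ℕ} (hs : ∀ d ∈ s, 0 < d) (ht : ∀ d ∈ t, 0 < d)
    (h : ∀ d : ℕ, 0 < d → d * s.count d = d * t.count d) : s = t := by
  ext d
  rcases Nat.eq_zero_or_pos d with h0 | h0
  · subst h0
    rw [Multiset.count_eq_zero.2 fun h => absurd (hs 0 h) (lt_irrefl 0),
      Multiset.count_eq_zero.2 fun h => absurd (ht 0 h) (lt_irrefl 0)]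
  · exact Nat.eq_of_mul_eq_mul_left h0 (h d h0)

/-- minimal periods of a permutation of a set of embeddings -/
theorem period_perm {K : Type*} [Field K] [NumberField K] {P : (K →ₐ[ℚ] L) → Prop} (h : Gal(L/ℚ))
    (π : Equiv.Perm {σ : K →ₐ[ℚ] L // P σ}) (hπ : ∀ σ, (π σ).1 = act h σ.1) (σ : {σ : K →ₐ[ℚ] L // P σ}) :
    Function.minimalPeriod π σ = Function.minimalPeriod (act h) σ.1 := by
  have hit : ∀ (n : ℕ) (σ : {σ : K →ₐ[ℚ] L // P σ}), (π^[n] σ).1 = (act h)^[n] σ.1 := by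
    intro n
    induction n with
    | zero => intro σ; rfl
    | succ n ih =>
      intro σ
      rw [Function.iterate_succ_apply, Function.iterate_succ_apply, ih, hπ]
  rw [Function.minimalPeriod_eq_minimalPeriod_iff]
  intro n
  rw [Function.IsPeriodicPt, Function.IsPeriodicPt, Function.IsFixedPt, Function.IsFixedPt, ← hit]
  constructor
  · intro h
    rw [h]
  · intro h
    exact Subtype.ext h

section abs

/-- THE COUNT, absolute version -/
theorem count_abs {K : Type} [Field K] [NumberField K] {p : ℕ} (hp : p.Prime)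
    (hd : ¬ (p : ℤ) ∣ NumberField.discr L) (g : Gal(L/ℚ)) (hE : (setE L (Subgroup.zpowers g) p).Nonempty)
    (σ₀ : K →ₐ[ℚ] L) (d : ℕ) :
    d * nd K p d = Nat.card {σ : K →ₐ[ℚ] L // Function.minimalPeriod (act g) σ = d} := by
  let _ : Algebra K L := σ₀.toRingHom.toAlgebra
  have hσ₀ : ∀ x : K, algebraMap K L x = σ₀ x := fun x => rfl
  have hst : IsScalarTower ℚ K L := inferInstance
  have hHK : ∀ ρ : Gal(L/ℚ), ρ ∈ H89AB.HK K L ↔ act ρ σ₀ = σ₀ := by
    intro ρ
    rw [H89AB.mem_HK, act_eq_iff]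
    rfl
  have h1 := nd_mul (K := K) hp hd (Subgroup.zpowers g) hE d
  have h2 : ∀ ρ : Gal(L/ℚ), d * Nat.card ((Subgroup.zpowers g).map (MulAut.conj ρ).toMonoidHom ⊓ H89AB.HK K L :
      Subgroup Gal(L/ℚ)) = Nat.card (Subgroup.zpowers g) ↔
      Function.minimalPeriod (act g) (act ρ⁻¹ σ₀) = d := by
    intro ρ
    have h3 : (Subgroup.zpowers g).map (MulAut.conj ρ).toMonoidHom = Subgroup.zpowers (ρ * g * ρ⁻¹) := by
      rw [MonoidHom.map_zpowers]
      rfl
    have h4 : Nat.card (Subgroup.zpowers (ρ * g * ρ⁻¹)) = Nat.card (Subgroup.zpowers g) := by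
      rw [← h3]
      exact (Nat.card_congr ((Subgroup.zpowers g).equivMapOfInjective _ (MulAut.conj ρ).injective).toEquiv).symm
    have h5 := card_inf (ρ * g * ρ⁻¹) σ₀ (H89AB.HK K L) (fun τ => by rw [hHK, act_eq_iff])
    rw [h4, period_conj] at h5
    rw [h3, ← h5]
    have hpos : 0 < Nat.card (Subgroup.zpowers (ρ * g * ρ⁻¹) ⊓ H89AB.HK K L : Subgroup Gal(L/ℚ)) := Nat.card_pos
    constructor
    · intro h
      exact (Nat.eq_of_mul_eq_mul_right hpos h).symm
    · intro h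
      rw [h]
  replace h1 := h1.trans (Nat.card_congr (Equiv.subtypeEquivRight h2))
  let Φ : Gal(L/ℚ) → (K →ₐ[ℚ] L) := fun ρ => act ρ⁻¹ σ₀
  have hfib : ∀ σ : K →ₐ[ℚ] L, Nat.card {ρ : Gal(L/ℚ) // Φ ρ = σ} = Nat.card (H89AB.HK K L) := by
    intro σ
    obtain ⟨ρ₁, hρ₁⟩ := exists_gal σ σ₀
    have hρ₁' : act ρ₁⁻¹ σ₀ = σ := by
      rw [← hρ₁, ← act_mul, inv_mul_cancel, act_one]
    refine Nat.card_congr
      { toFun := fun ρ => ⟨ρ.1 * ρ₁⁻¹, by
          rw [hHK, act_mul, hρ₁']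
          have h5 : act (ρ.1⁻¹) σ₀ = σ := ρ.2
          refine (congrArg (act ρ.1) h5.symm).trans ?_
          rw [← act_mul, mul_inv_cancel, act_one]⟩
        invFun := fun h => ⟨h.1 * ρ₁, by
          show act ((h.1 * ρ₁)⁻¹) σ₀ = σ
          rw [mul_inv_rev, act_mul]
          have h5 : act ((h.1 : Gal(L/ℚ))⁻¹) σ₀ = σ₀ := (hHK _).1 ((H89AB.HK K L).inv_mem h.2)
          rw [h5, hρ₁']⟩
        left_inv := fun ρ => by
          apply Subtype.ext
          show ρ.1 * ρ₁⁻¹ * ρ₁ = ρ.1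
          rw [inv_mul_cancel_right]
        right_inv := fun h => by
          apply Subtype.ext
          show (h.1 : Gal(L/ℚ)) * ρ₁ * ρ₁⁻¹ = h.1
          rw [mul_inv_cancel_right] }
  have hfinEmb : Finite (K →ₐ[ℚ] L) := inferInstance
  have h9 := card_const_fiber Φ (Nat.card (H89AB.HK K L)) hfib
    (fun σ => Function.minimalPeriod (act g) σ = d)
  have h10 : Nat.card {ρ : Gal(L/ℚ) // Function.minimalPeriod (act g) (act ρ⁻¹ σ₀) = d} =
      Nat.card (H89AB.HK K L) * Nat.card {σ : K →ₐ[ℚ] L // Function.minimalPeriod (act g) σ = d} := h9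
  rw [h10, mul_assoc] at h1
  exact Nat.eq_of_mul_eq_mul_left Nat.card_pos h1

theorem period_perm' {K : Type*} [Field K] [NumberField K] (h : Gal(L/ℚ))
    (π : Equiv.Perm (K →ₐ[ℚ] L)) (hπ : ∀ σ, π σ = act h σ) (σ : K →ₐ[ℚ] L) :
    Function.minimalPeriod π σ = Function.minimalPeriod (act h) σ := by
  have : (π : (K →ₐ[ℚ] L) → (K →ₐ[ℚ] L)) = act h := funext hπ
  rw [this]

theorem inertiaDeg_pos_Z {K : Type*} [Field K] [NumberField K] {p : ℕ} (hp : p.Prime) (v : Ideal (𝓞 K)) [v.IsPrime]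
    (hv : (p : 𝓞 K) ∈ v) : 0 < v.inertiaDeg ℤ := by
  have h1 := H89AB.card_quot hp v hv
  rcases Nat.eq_zero_or_pos (v.inertiaDeg ℤ) with h | h
  · exfalso
    rw [h, pow_zero] at h1
    have h2 : Subsingleton (𝓞 K ⧸ v) := (Nat.card_eq_one_iff_unique.1 h1).1
    rw [Ideal.Quotient.subsingleton_iff] at h2
    exact Ideal.IsPrime.ne_top inferInstance h2
  · exact h

/-- THE RESIDUE DEGREES ABOVE `p` ARE THE PARTS OF THE CYCLE TYPE -/
theorem abs_part {K : Type} [Field K] [NumberField K] [Fintype (K →ₐ[ℚ] L)] [DecidableEq (K →ₐ[ℚ] L)]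
    {p : ℕ} (hp : p.Prime)
    (hd : ¬ (p : ℤ) ∣ NumberField.discr L) (g : Gal(L/ℚ)) (hE : (setE L (Subgroup.zpowers g) p).Nonempty)
    (σ₀ : K →ₐ[ℚ] L) (π : Equiv.Perm (K →ₐ[ℚ] L)) (hπ : ∀ σ, π σ = act g σ)
    (S : Finset (HeightOneSpectrum (𝓞 K))) (hS : ∀ v, v ∈ S ↔ (p : 𝓞 K) ∈ v.asIdeal) :
    S.val.map (fun v => v.asIdeal.inertiaDeg ℤ) = π.partition.parts := by
  classical
  refine multiset_eq_of_mul ?_ (fun d hd => π.partition.parts_pos hd) ?_
  · intro d hd
    obtain ⟨v, hv, rfl⟩ := Multiset.mem_map.1 hd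
    exact inertiaDeg_pos_Z hp v.asIdeal ((hS v).1 hv)
  · intro d hd0
    rw [perm_count π d hd0]
    have h1 := count_abs (K := K) hp hd g hE σ₀ d
    have h2 : nd K p d = (S.val.map (fun v => v.asIdeal.inertiaDeg ℤ)).count d := by
      rw [nd, Multiset.count_map, ← Finset.filter_val, Finset.card_val, ← Set.ncard_coe_finset]
      congr 1
      ext v
      simp only [Set.mem_setOf_eq, Finset.coe_filter, hS]
      rw [eq_comm (a := d)]
    rw [← h2, h1, Nat.card_eq_fintype_card, Fintype.card_subtype]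
    congr 1
    ext σ
    simp only [mem_filter, mem_univ, true_and]
    rw [period_perm' g π hπ]

/-- primes of subfields are unramified -/
theorem ram_one_sub {K : Type} [Field K] [NumberField K] {p : ℕ} (hp : p.Prime)
    (hd : ¬ (p : ℤ) ∣ NumberField.discr L) (σ₀ : K →ₐ[ℚ] L) (v : Ideal (𝓞 K)) [v.IsPrime]
    (hv : (p : 𝓞 K) ∈ v) : v.ramificationIdx ℤ = 1 := by
  let _ : Algebra K L := σ₀.toRingHom.toAlgebra
  obtain ⟨P, hP, hPv⟩ := (inferInstance : Nonempty (v.primesOver (𝓞 L)))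
  have hvp := H89AB.lies_over_pZ hp v hv
  have hPp : P.LiesOver (pZ p) := Ideal.LiesOver.trans P v (pZ p)
  have h1 := ram_one hp hd P ⟨hP, hPp⟩
  have h2 : P.ramificationIdx ℤ = v.ramificationIdx ℤ * P.ramificationIdx (𝓞 K) :=
    Ideal.ramificationIdx_tower (R := ℤ) v P
  rw [h1] at h2
  exact Nat.eq_one_of_mul_eq_one_right h2.symm

/-- the residue degrees and local degrees above `p` -/
theorem abs_part_pairs {K : Type} [Field K] [NumberField K] [Fintype (K →ₐ[ℚ] L)] [DecidableEq (K →ₐ[ℚ] L)]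
    {p : ℕ} (hp : p.Prime)
    (hd : ¬ (p : ℤ) ∣ NumberField.discr L) (g : Gal(L/ℚ)) (hE : (setE L (Subgroup.zpowers g) p).Nonempty)
    (σ₀ : K →ₐ[ℚ] L) (π : Equiv.Perm (K →ₐ[ℚ] L)) (hπ : ∀ σ, π σ = act g σ)
    (S : Finset (HeightOneSpectrum (𝓞 K))) (hS : ∀ v, v ∈ S ↔ (p : 𝓞 K) ∈ v.asIdeal) :
    S.val.map (fun v => (v.asIdeal.ramificationIdx ℤ * v.asIdeal.inertiaDeg ℤ, v.asIdeal.inertiaDeg ℤ)) =
      π.partition.parts.map (fun m => (m, m)) := by
  rw [← abs_part hp hd g hE σ₀ π hπ S hS, Multiset.map_map]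
  refine Multiset.map_congr rfl fun v hv => ?_
  have hvp := v.isPrime
  rw [ram_one_sub hp hd σ₀ v.asIdeal ((hS v).1 hv), one_mul]
  rfl

end abs

section rel

theorem card_pos_deg {F K : Type} [Field F] [NumberField F] [Field K] [NumberField K] [Algebra F K]
    (u : Ideal (𝓞 F)) [u.IsMaximal] (v : Ideal (𝓞 K)) [v.IsPrime] [v.LiesOver u] (hu : u ≠ ⊥) :
    0 < v.inertiaDeg (𝓞 F) := by
  have hv : v ≠ ⊥ := by
    intro h
    apply hu
    rw [Ideal.LiesOver.over (P := v) (p := u), h, Ideal.under_bot]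
  have : v.IsMaximal := Ideal.IsPrime.isMaximal inferInstance hv
  exact Ideal.inertiaDeg_pos _ _

/-- THE RESIDUE DEGREES ABOVE `u` ARE THE PARTS OF THE CYCLE TYPE -/
theorem rel_part {F K : Type} [Field F] [NumberField F] [Field K] [NumberField K] [Algebra F K]
    {p : ℕ} (hp : p.Prime) (hd : ¬ (p : ℤ) ∣ NumberField.discr L) (g : Gal(L/ℚ))
    (hE : (setE L (Subgroup.zpowers g) p).Nonempty)
    (σ₁ : K →ₐ[ℚ] L) (τ : F →ₐ[ℚ] L) [Fintype (Emb K τ)] [DecidableEq (Emb K τ)]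
    (π : Equiv.Perm (Emb K τ))
    (hπ : ∀ σ, (π σ).1 = act (g ^ Function.minimalPeriod (act g) τ) σ.1) :
    ∃ u : HeightOneSpectrum (𝓞 F), (p : 𝓞 F) ∈ u.asIdeal ∧
      Nat.card (𝓞 F ⧸ u.asIdeal) = p ^ Function.minimalPeriod (act g) τ ∧
      ∀ S : Finset (HeightOneSpectrum (𝓞 K)), (∀ v, v ∈ S ↔ v.asIdeal.LiesOver u.asIdeal) →
        S.val.map (fun v => (v.asIdeal.ramificationIdx (𝓞 F) * v.asIdeal.inertiaDeg (𝓞 F),
          v.asIdeal.inertiaDeg (𝓞 F))) = π.partition.parts.map (fun m => (m, m)) := by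
  classical
  -- an embedding over `τ`
  obtain ⟨ρ, hρ⟩ := exists_gal ((σ₁.comp (IsScalarTower.toAlgHom ℚ F K) : F →ₐ[ℚ] L)) τ
  let σ₀ : K →ₐ[ℚ] L := act ρ σ₁
  have hσ₀ : ∀ x : F, σ₀ (algebraMap F K x) = τ x := by
    intro x
    rw [← hρ]
    rfl
  let _ : Algebra K L := σ₀.toRingHom.toAlgebra
  let _ : Algebra F L := τ.toRingHom.toAlgebra
  have hst : IsScalarTower F K L := by
    refine IsScalarTower.of_algebraMap_eq fun x => ?_
    exact (hσ₀ x).symm
  obtain ⟨Q, hQ, hQE⟩ := hE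
  have hQp := hQ.1
  have hQl := hQ.2
  have hpZ := pZ_prime hp
  have hpM := pZ_max hp
  have hub : Q.under (𝓞 F) ≠ ⊥ := H89AB.under_ne_bot hp hQ
  have hu : (Q.under (𝓞 F)).IsPrime := inferInstance
  have hum : (Q.under (𝓞 F)).IsMaximal := hu.isMaximal hub
  have hmem : (p : 𝓞 F) ∈ Q.under (𝓞 F) := H89AB.mem_under (K := F) hQ
  refine ⟨⟨Q.under (𝓞 F), hu, hub⟩, hmem, ?_, ?_⟩
  · have h1 := H89AB.card_quot hp (Q.under (𝓞 F)) hmem
    rw [H89AB.deg_under hp hd g hQ hQE τ (fun x => rfl)] at h1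
    exact h1
  · intro S hS
    have hB : ((Q.under (𝓞 F)).primesOver (𝓞 K)).Finite :=
      IsDedekindDomain.primesOver_finite (Q.under (𝓞 F)) (𝓞 K)
    have he : ∀ v : HeightOneSpectrum (𝓞 K), v ∈ S → v.asIdeal.ramificationIdx (𝓞 F) = 1 := by
      intro v hv
      have hvl : v.asIdeal.LiesOver (Q.under (𝓞 F)) := (hS v).1 hv
      have hvp := v.isPrime
      obtain ⟨P, hP, hPv⟩ := (inferInstance : Nonempty (v.asIdeal.primesOver (𝓞 L)))
      have hup : (Q.under (𝓞 F)).LiesOver (pZ p) := Ideal.LiesOver.tower_bot Q (Q.under (𝓞 F)) (pZ p)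
      have hvpZ : v.asIdeal.LiesOver (pZ p) := Ideal.LiesOver.trans v.asIdeal (Q.under (𝓞 F)) (pZ p)
      have hPp : P.LiesOver (pZ p) := Ideal.LiesOver.trans P v.asIdeal (pZ p)
      have h1 := ram_one hp hd P ⟨hP, hPp⟩
      have h2 : P.ramificationIdx ℤ = v.asIdeal.ramificationIdx ℤ * P.ramificationIdx (𝓞 K) :=
        Ideal.ramificationIdx_tower (R := ℤ) v.asIdeal P
      have h3 : v.asIdeal.ramificationIdx ℤ = (Q.under (𝓞 F)).ramificationIdx ℤ * v.asIdeal.ramificationIdx (𝓞 F) :=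
        Ideal.ramificationIdx_tower (R := ℤ) (Q.under (𝓞 F)) v.asIdeal
      rw [h1] at h2
      have h4 := Nat.eq_one_of_mul_eq_one_right h2.symm
      rw [h4] at h3
      exact Nat.eq_one_of_mul_eq_one_left h3.symm
    have h1 : S.val.map (fun v => (v.asIdeal.ramificationIdx (𝓞 F) * v.asIdeal.inertiaDeg (𝓞 F),
          v.asIdeal.inertiaDeg (𝓞 F))) =
        (S.val.map (fun v => v.asIdeal.inertiaDeg (𝓞 F))).map (fun m => (m, m)) := by
      rw [Multiset.map_map]
      refine Multiset.map_congr rfl fun v hv => ?_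
      rw [he v hv, one_mul]
      rfl
    rw [h1]
    congr 1
    refine multiset_eq_of_mul ?_ (fun d hd => π.partition.parts_pos hd) ?_
    · intro d hd
      obtain ⟨v, hv, rfl⟩ := Multiset.mem_map.1 hd
      have hvl : v.asIdeal.LiesOver (Q.under (𝓞 F)) := (hS v).1 hv
      have hvp := v.isPrime
      exact card_pos_deg (Q.under (𝓞 F)) v.asIdeal hub
    · intro d hd0
      rw [perm_count π d hd0]
      have h2 := count_rel hp hd g Q hQ hQE τ (fun x => rfl) hB d
      have h3 : (hB.toFinset.filter (fun v => v.inertiaDeg (𝓞 F) = d)).card =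
          (S.val.map (fun v => v.asIdeal.inertiaDeg (𝓞 F))).count d := by
        rw [Multiset.count_map, ← Finset.filter_val, Finset.card_val]
        symm
        refine Finset.card_bij (fun v _ => v.asIdeal) ?_ ?_ ?_
        · intro v hv
          obtain ⟨hv1, hv2⟩ := mem_filter.1 hv
          have hvl : v.asIdeal.LiesOver (Q.under (𝓞 F)) := (hS v).1 hv1
          refine mem_filter.2 ⟨?_, hv2.symm⟩
          rw [Set.Finite.mem_toFinset]
          exact ⟨v.isPrime, hvl⟩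
        · intro a _ b _ h
          exact HeightOneSpectrum.ext h
        · intro v hv
          obtain ⟨hv1, hv2⟩ := mem_filter.1 hv
          rw [Set.Finite.mem_toFinset] at hv1
          have hvl := hv1.2
          have hv0 : v ≠ ⊥ := by
            intro h
            apply hub
            rw [Ideal.LiesOver.over (P := v) (p := Q.under (𝓞 F)), h, Ideal.under_bot]
          refine ⟨⟨v, hv1.1, hv0⟩, mem_filter.2 ⟨(hS _).2 hvl, hv2.symm⟩, rfl⟩
      rw [← h3, h2, Nat.card_eq_fintype_card, Fintype.card_subtype]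
      congr 1
      ext σ
      simp only [mem_filter, mem_univ, true_and]
      rw [period_perm _ π hπ]

end rel

end Pool.Agent.H89.FrobD
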