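import Pool.Agent.H89.FrobD.Fields

/-!
# Frobenius elements

For `p` unramified in the Galois extension `L / ℚ` and `Q | p`, there is `τ` with `τ x ≡ x^p` modulo `Q` and
`⟨τ⟩ = D(Q)`; and a ring homomorphism `φ : 𝓞 L → Ω` with `φ (τ x) = φ(x)^p`.
-/

set_option linter.unusedSectionVars false

open scoped Pointwise NumberField
open MulAction Ideal Finset Polynomial

namespace Pool.Agent.H89.FrobD

variable (L : Type) [Field L] [NumberField L] [IsGalois ℚ L]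

theorem mem_of_over {p : ℕ} {Q : Ideal (𝓞 L)} (hQ : Q ∈ (pZ p).primesOver (𝓞 L)) : (p : 𝓞 L) ∈ Q := by
  have h1 : (p : ℤ) ∈ Q.under ℤ := by
    rw [← hQ.2.over]
    exact Ideal.mem_span_singleton_self _
  have h2 : algebraMap ℤ (𝓞 L) (p : ℤ) ∈ Q := h1
  simpa using h2

theorem ne_bot_of_over {p : ℕ} (hp : p.Prime) {Q : Ideal (𝓞 L)} (hQ : Q ∈ (pZ p).primesOver (𝓞 L)) : Q ≠ ⊥ := by
  intro h
  have := mem_of_over L hQ
  rw [h, Ideal.mem_bot, Nat.cast_eq_zero] at this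
  exact hp.ne_zero this

/-- the Frobenius element generates the decomposition group -/
theorem frob_elt {p : ℕ} (hp : p.Prime) (hd : ¬ (p : ℤ) ∣ NumberField.discr L) (Q : Ideal (𝓞 L))
    (hQ : Q ∈ (pZ p).primesOver (𝓞 L)) :
    ∃ τ : Gal(L/ℚ), Subgroup.zpowers τ = stabilizer Gal(L/ℚ) Q ∧ ∀ x : 𝓞 L, τ • x - x ^ p ∈ Q := by
  classical
  have hQp := hQ.1
  have hQl := hQ.2
  have := pZ_prime hp
  have hQ0 := ne_bot_of_over L hp hQ
  have hmax : Q.IsMaximal := hQp.isMaximal hQ0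
  have hfin : Finite (𝓞 L ⧸ Q) := Ideal.finiteQuotientOfFreeOfNeBot Q hQ0
  obtain ⟨τ, hτ⟩ := IsArithFrobAt.exists_of_isInvariant ℤ Gal(L/ℚ) Q
  have hcardZ : Nat.card (ℤ ⧸ Q.under ℤ) = p := by
    rw [← hQl.over]
    have h := Int.card_ideal_quot p
    exact h
  have hτ' : ∀ x : 𝓞 L, τ • x - x ^ p ∈ Q := by
    intro x
    have h := hτ x
    rw [hcardZ] at h
    exact h
  refine ⟨τ, ?_, hτ'⟩
  have hmem : τ ∈ stabilizer Gal(L/ℚ) Q := hτ.mem_stabilizer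
  have hle : Subgroup.zpowers τ ≤ stabilizer Gal(L/ℚ) Q := by rwa [Subgroup.zpowers_le]
  refine Subgroup.eq_of_le_of_card_ge hle ?_
  rw [Nat.card_zpowers]
  -- the size of the decomposition group
  have h1 : Nat.card (stabilizer Gal(L/ℚ) Q) = Q.inertiaDeg ℤ := by
    have := card_stabilizer_eq_card_inertia_mul_finrank (G := Gal(L/ℚ)) (pZ p) Q
    rw [unram L hp hd Q hQ, one_mul] at this
    exact this
  rw [h1]
  -- powers
  have hpow : ∀ (k : ℕ) (x : 𝓞 L), τ ^ k • x - x ^ p ^ k ∈ Q := by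
    intro k
    induction k with
    | zero => intro x; simp
    | succ k ih =>
      intro x
      have h2 := ih (τ • x)
      have h3 : (τ • x) ^ p ^ k - (x ^ p) ^ p ^ k ∈ Q := by
        rw [← Ideal.Quotient.eq] at *
        have h4 := hτ' x
        rw [← Ideal.Quotient.eq] at h4
        rw [map_pow, h4, map_pow, map_pow, map_pow]
      have h5 : τ ^ (k + 1) • x = τ ^ k • (τ • x) := by rw [pow_succ, mul_smul]
      rw [h5, pow_succ', pow_mul]
      have := Q.add_mem h2 h3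
      simpa using this
  have hord := hpow (orderOf τ)
  have hopos : 0 < orderOf τ := orderOf_pos τ
  -- roots of `X^(p^k) - X`
  let _ : Field (𝓞 L ⧸ Q) := Ideal.Quotient.field Q
  have hroots : Nat.card (𝓞 L ⧸ Q) ≤ p ^ orderOf τ := by
    have hft : Fintype (𝓞 L ⧸ Q) := Fintype.ofFinite _
    have hlt : 1 < p ^ orderOf τ := Nat.one_lt_pow hopos.ne' hp.one_lt
    have hne : (X ^ (p ^ orderOf τ) - X : (𝓞 L ⧸ Q)[X]) ≠ 0 := FiniteField.X_pow_card_sub_X_ne_zero _ hlt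
    have hsub : (Finset.univ : Finset (𝓞 L ⧸ Q)) ⊆ (X ^ (p ^ orderOf τ) - X : (𝓞 L ⧸ Q)[X]).roots.toFinset := by
      intro y _
      obtain ⟨x, rfl⟩ := Ideal.Quotient.mk_surjective y
      rw [Multiset.mem_toFinset, mem_roots hne, IsRoot.def, eval_sub, eval_pow, eval_X, sub_eq_zero]
      have h := hord x
      rw [pow_orderOf_eq_one, one_smul, ← Ideal.Quotient.eq, map_pow] at h
      exact h.symm
    rw [Nat.card_eq_fintype_card, ← Finset.card_univ]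
    refine (Finset.card_le_card hsub).trans ((Multiset.toFinset_card_le _).trans ((card_roots' _).trans ?_))
    rw [FiniteField.X_pow_card_sub_X_natDegree_eq _ hlt]
  have hcard : Nat.card (𝓞 L ⧸ Q) = p ^ Q.inertiaDeg ℤ := by
    rw [Ideal.pow_inertiaDeg p Q]
    rfl
  rw [hcard] at hroots
  exact (Nat.pow_le_pow_iff_right hp.one_lt).1 hroots

/-- a reduction with the Frobenius -/
theorem exists_phi {p : ℕ} [hpf : Fact p.Prime] (Ω : Type*) [Field Ω] [IsAlgClosed Ω] [CharP Ω p]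
    (Q : Ideal (𝓞 L)) (hQ : Q ∈ (pZ p).primesOver (𝓞 L)) :
    ∃ φ : 𝓞 L →+* Ω, RingHom.ker φ = Q := by
  have hqp : p.Prime := Fact.out
  have hP0 := ne_bot_of_over L hqp hQ
  have hqP := mem_of_over L hQ
  have hP := hQ.1
  have hmax : Q.IsMaximal := hP.isMaximal hP0
  let _ : Field (𝓞 L ⧸ Q) := Ideal.Quotient.field Q
  have hchar : CharP (𝓞 L ⧸ Q) p := by
    have h1 : ((p : ℕ) : 𝓞 L ⧸ Q) = 0 := by
      have : ((p : ℕ) : 𝓞 L ⧸ Q) = Ideal.Quotient.mk Q (p : 𝓞 L) := by simp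
      rw [this, Ideal.Quotient.eq_zero_iff_mem]
      exact hqP
    obtain ⟨r, hr⟩ := CharP.exists (𝓞 L ⧸ Q)
    have h2 : r ∣ p := (CharP.cast_eq_zero_iff (𝓞 L ⧸ Q) r p).1 h1
    rcases (Nat.dvd_prime hqp).1 h2 with h3 | h3
    · exfalso
      rw [h3] at hr
      exact CharP.ringChar_ne_one (R := 𝓞 L ⧸ Q) (CharP.eq _ (ringChar.charP _) hr)
    · rw [← h3]
      exact hr
  let _ : Algebra (ZMod p) (𝓞 L ⧸ Q) := ZMod.algebra _ p
  let _ : Algebra (ZMod p) Ω := ZMod.algebra _ p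
  have hfin : Finite (𝓞 L ⧸ Q) := Ideal.finiteQuotientOfFreeOfNeBot Q hP0
  have halg : Algebra.IsAlgebraic (ZMod p) (𝓞 L ⧸ Q) := by
    have : Module.Finite (ZMod p) (𝓞 L ⧸ Q) := Module.Finite.of_finite
    infer_instance
  refine ⟨((IsAlgClosed.lift : (𝓞 L ⧸ Q) →ₐ[ZMod p] Ω) : (𝓞 L ⧸ Q) →+* Ω).comp (Ideal.Quotient.mk Q), ?_⟩
  ext x
  rw [RingHom.mem_ker, RingHom.comp_apply, ← Ideal.Quotient.eq_zero_iff_mem]
  constructor
  · intro h
    exact (RingHom.injective ((IsAlgClosed.lift : (𝓞 L ⧸ Q) →ₐ[ZMod p] Ω) : (𝓞 L ⧸ Q) →+* Ω))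
      (by rw [h, map_zero])
  · intro h
    rw [h, map_zero]

/-- the reduction with its Frobenius -/
theorem exists_frob {p : ℕ} [hpf : Fact p.Prime] (hd : ¬ (p : ℤ) ∣ NumberField.discr L)
    (Ω : Type*) [Field Ω] [IsAlgClosed Ω] [CharP Ω p]
    (E : Subgroup Gal(L/ℚ)) (hE : (setE L E p).Nonempty) :
    ∃ (φ : 𝓞 L →+* Ω) (τ : Gal(L/ℚ)), Subgroup.zpowers τ = E ∧ ∀ x : 𝓞 L, φ (τ • x) = φ x ^ p := by
  obtain ⟨Q, hQ, hQE⟩ := hE
  obtain ⟨τ, hτ, hτ'⟩ := frob_elt L hpf.out hd Q hQ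
  obtain ⟨φ, hφ⟩ := exists_phi L (p := p) Ω Q hQ
  refine ⟨φ, τ, hτ.trans hQE, fun x => ?_⟩
  have h := hτ' x
  rw [← hφ, RingHom.mem_ker, map_sub, map_pow, sub_eq_zero] at h
  exact h

end Pool.Agent.H89.FrobD
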