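import Pool.Agent.H89.FrobD.Dens
import Pool.Agent.H89.FrobD.Elt
import Pool.Agent.H24.FD.UDsum

/-!
# The Frobenius density theorem: upper densities and the residue degrees in subfields

`frob_upper`: for `L / ℚ` Galois, `g` in the group, `σ₀ : K → L` an embedding and `B` a set of primes of density
zero, the primes `p` outside `B` such that `K` has a prime above `p` whose residue degree is the length of the
orbit of `σ₀` under `g` (and `p ≡ 1` modulo `3` if `g` fixes the cube roots of unity in `L`) have upper density at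
least `1 / [L : ℚ]` among the primes.
-/

set_option autoImplicit false
set_option linter.unusedSectionVars false

open scoped Pointwise NumberField
open MulAction Ideal Finset Filter

namespace Pool.Agent.H89.FrobD

open Pool.Agent.H71.FD (UD Null cn th)
open Pool.Agent.H24.FD (dS)

section dens

variable (L : Type) [Field L] [NumberField L] [IsGalois ℚ L]

/-- the primes `p`, unramified, with a prime above `p` whose decomposition group is `E` -/
def GP (E : Subgroup Gal(L/ℚ)) (p : ℕ) : Prop :=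
  ¬ (p : ℤ) ∣ NumberField.discr L ∧ (setE L E p).Nonempty

theorem AA_le (E : Subgroup Gal(L/ℚ)) {s : ℝ} (hs : 1 < s) :
    AA L E s ≤ (Nat.card Gal(L/ℚ) : ℝ) * dS (GP L E) s := by
  classical
  unfold AA dS
  rw [← tsum_mul_left]
  refine (summable_cf L E s hs).tsum_le_tsum (fun p => ?_)
    ((Pool.Agent.H24.FD.dS_summable (GP L E) hs).mul_left _)
  have hw : (0 : ℝ) ≤ ((p : ℕ) : ℝ) ^ (-s) := Real.rpow_nonneg (Nat.cast_nonneg _) _
  unfold cf wt
  by_cases h : ((p : ℕ) : ℤ) ∣ NumberField.discr L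
  · rw [if_pos h, zero_mul]
    split_ifs
    · positivity
    · simp
  · rw [if_neg h]
    by_cases h2 : (setE L E p).Nonempty
    · rw [if_pos (show GP L E p from ⟨h, h2⟩)]
      refine mul_le_mul_of_nonneg_right ?_ hw
      exact_mod_cast bE_le L E p.2
    · have h3 : bE L E p = 0 := by
        rw [bE, Set.not_nonempty_iff_eq_empty.1 h2, Set.ncard_empty]
      rw [h3, mul_zero, Nat.cast_zero, zero_mul]
      split_ifs
      · positivity
      · simp

theorem GP_sum (E : Subgroup Gal(L/ℚ)) :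
    ∃ C : ℝ, ∀ s : ℝ, 1 < s → s < 2 →
      (gens L E : ℝ) / (Nat.card Gal(L/ℚ) : ℝ) * Real.log (1 / (s - 1)) - C ≤ dS (GP L E) s := by
  obtain ⟨C, hC⟩ := frob_density L E
  have hn : (0 : ℝ) < (Nat.card Gal(L/ℚ) : ℝ) := by exact_mod_cast (Nat.card_pos (α := Gal(L/ℚ)))
  refine ⟨C / (Nat.card Gal(L/ℚ) : ℝ), fun s hs hs2 => ?_⟩
  have h1 := hC s hs hs2
  have h2 := AA_le L E hs
  have h3 := (abs_le.1 h1).1
  have h4 : (gens L E : ℝ) * Real.log (1 / (s - 1)) - C ≤ (Nat.card Gal(L/ℚ) : ℝ) * dS (GP L E) s := by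
    linarith
  have h5 : (gens L E : ℝ) / (Nat.card Gal(L/ℚ) : ℝ) * Real.log (1 / (s - 1)) - C / (Nat.card Gal(L/ℚ) : ℝ) =
      ((gens L E : ℝ) * Real.log (1 / (s - 1)) - C) / (Nat.card Gal(L/ℚ) : ℝ) := by ring
  rw [h5, div_le_iff₀ hn]
  linarith

/-- counting the primes -/
theorem GP_count (E : Subgroup Gal(L/ℚ)) {B : ℕ → Prop} (hB : Null B) (ε : ℝ) (hε : 0 < ε) (x₀ : ℕ) :
    ∃ x : ℕ, x₀ ≤ x ∧ ((gens L E : ℝ) / (Nat.card Gal(L/ℚ) : ℝ) - ε) * (x / Real.log x) ≤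
      (cn (fun p => GP L E p ∧ ¬ B p) x : ℝ) := by
  have h1 := Pool.Agent.H24.FD.not_UD_sdiff (GP_sum L E) hB
    (e := (gens L E : ℝ) / (Nat.card Gal(L/ℚ) : ℝ) - ε) (by linarith)
  unfold UD at h1
  push Not at h1
  obtain ⟨η, hη, h2⟩ := h1
  obtain ⟨x, h3, h4⟩ := (h2.and_eventually (eventually_ge_atTop (max x₀ 2))).exists
  have hx2 : 2 ≤ x := (le_max_right _ _).trans h4
  have hx1 : (1 : ℝ) < x := by exact_mod_cast hx2
  have hl : 0 < Real.log x := Real.log_pos hx1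
  refine ⟨x, (le_max_left _ _).trans h4, ?_⟩
  have h5 := Pool.Agent.H71.FD.th_le_cn (fun p => GP L E p ∧ ¬ B p) x
  rw [← mul_div_assoc, div_le_iff₀ hl]
  have h6 : ((gens L E : ℝ) / (Nat.card Gal(L/ℚ) : ℝ) - ε) * x ≤ η * x :=
    mul_le_mul_of_nonneg_right hη.le (by linarith)
  linarith

theorem one_le_gens (g : Gal(L/ℚ)) : 1 ≤ gens L (Subgroup.zpowers g) := by
  unfold gens
  have : Nonempty {x : Gal(L/ℚ) // Subgroup.zpowers x = Subgroup.zpowers g} := ⟨⟨g, rfl⟩⟩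
  exact Nat.card_pos

end dens

section orbit

variable {L : Type} [Field L] [NumberField L] [IsGalois ℚ L] {K : Type*} [Field K] [NumberField K]

/-- the action of `g` on the embeddings -/
def act (g : Gal(L/ℚ)) (σ : K →ₐ[ℚ] L) : K →ₐ[ℚ] L := (g : L →ₐ[ℚ] L).comp σ

theorem act_iter (g : Gal(L/ℚ)) (σ : K →ₐ[ℚ] L) (n : ℕ) :
    (act g)^[n] σ = act (g ^ n) σ := by
  induction n with
  | zero => ext x; rfl
  | succ n ih =>
    rw [Function.iterate_succ_apply', ih]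
    ext x
    show g ((g ^ n) (σ x)) = (g ^ (n + 1)) (σ x)
    rw [pow_succ']
    rfl

theorem act_eq_iff (g : Gal(L/ℚ)) (σ : K →ₐ[ℚ] L) : act g σ = σ ↔ ∀ x : K, g (σ x) = σ x := by
  constructor
  · intro h x
    exact DFunLike.congr_fun h x
  · intro h
    ext x
    exact h x

/-- the part of `⟨g⟩` which fixes `σ₀ K` -/
theorem card_inf (g : Gal(L/ℚ)) (σ : K →ₐ[ℚ] L) (H : Subgroup Gal(L/ℚ))
    (hH : ∀ τ : Gal(L/ℚ), τ ∈ H ↔ ∀ x : K, τ (σ x) = σ x) :
    Function.minimalPeriod (act g) σ * Nat.card (Subgroup.zpowers g ⊓ H : Subgroup Gal(L/ℚ)) =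
      Nat.card (Subgroup.zpowers g) := by
  set m := Function.minimalPeriod (act g) σ with hm
  have hdvd : ∀ n : ℕ, g ^ n ∈ H ↔ m ∣ n := by
    intro n
    rw [hH, ← act_eq_iff, ← act_iter, hm, ← Function.isPeriodicPt_iff_minimalPeriod_dvd]
    rfl
  have hfin : IsOfFinOrder g := isOfFinOrder_of_finite g
  have hmo : m ∣ orderOf g := by
    rw [← hdvd, pow_orderOf_eq_one]
    exact H.one_mem
  have hopos : 0 < orderOf g := orderOf_pos g
  have hm0 : m ≠ 0 := fun h => by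
    rw [h, zero_dvd_iff] at hmo
    omega
  have hinf : (Subgroup.zpowers g ⊓ H : Subgroup Gal(L/ℚ)) = Subgroup.zpowers (g ^ m) := by
    ext τ
    rw [Subgroup.mem_inf]
    constructor
    · rintro ⟨h1, h2⟩
      rw [← hfin.mem_powers_iff_mem_zpowers] at h1
      obtain ⟨n, rfl⟩ := h1
      obtain ⟨k, rfl⟩ := (hdvd n).1 h2
      show g ^ (m * k) ∈ _
      rw [pow_mul]
      exact Subgroup.pow_mem _ (Subgroup.mem_zpowers _) k
    · intro h
      have h1 : Subgroup.zpowers (g ^ m) ≤ Subgroup.zpowers g ⊓ H := by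
        rw [Subgroup.zpowers_le, Subgroup.mem_inf]
        exact ⟨Subgroup.pow_mem _ (Subgroup.mem_zpowers g) m, (hdvd m).2 dvd_rfl⟩
      exact (Subgroup.mem_inf.1 (h1 h))
  rw [hinf, Nat.card_zpowers, Nat.card_zpowers, orderOf_pow_of_dvd hm0 hmo, Nat.mul_div_cancel' hmo]

/-- the residue degree of the prime below `Q` in `K` -/
theorem deg_eq {p : ℕ} (hp : p.Prime) (hd : ¬ (p : ℤ) ∣ NumberField.discr L) (g : Gal(L/ℚ)) (σ : K →ₐ[ℚ] L)
    (hE : (setE L (Subgroup.zpowers g) p).Nonempty) :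
    ∃ v : IsDedekindDomain.HeightOneSpectrum (𝓞 K), (p : 𝓞 K) ∈ v.asIdeal ∧
      v.asIdeal.inertiaDeg ℤ = Function.minimalPeriod (act g) σ := by
  obtain ⟨Q, hQ, hQE⟩ := hE
  have hQp := hQ.1
  have hQl := hQ.2
  have hpZ := pZ_prime hp
  let _ : Algebra K L := σ.toRingHom.toAlgebra
  have hmap : ∀ x : K, algebraMap K L x = σ x := fun x => rfl
  have : IsScalarTower ℚ K L := IsScalarTower.of_algebraMap_eq' (by
    ext
    simp)
  set H : Subgroup Gal(L/ℚ) := fixingSubgroup Gal(L/ℚ) (Set.range (algebraMap K L)) with hHdef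
  have hH : ∀ τ : Gal(L/ℚ), τ ∈ H ↔ ∀ x : K, τ (σ x) = σ x := by
    intro τ
    rw [hHdef, mem_fixingSubgroup_iff]
    constructor
    · intro h x
      exact h _ ⟨x, rfl⟩
    · rintro h _ ⟨x, rfl⟩
      exact h x
  have : IsGaloisGroup H K L := IsGaloisGroup.of_isScalarTower Gal(L/ℚ) ℚ L K
  have : IsGaloisGroup H (𝓞 K) (𝓞 L) := IsGaloisGroup.of_isFractionRing H (𝓞 K) (𝓞 L) K L
  have : (Q.under (𝓞 K)).LiesOver (pZ p) := Ideal.LiesOver.tower_bot Q (Q.under (𝓞 K)) (pZ p)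
  have h1 := deg_mul (A := ℤ) (B := 𝓞 K) (C := 𝓞 L) H (pZ p) Q (Q.under (𝓞 K)) (unram L hp hd Q hQ)
  rw [card_stab_inf, hQE] at h1
  have h2 := card_inf g σ H hH
  have hmem : (p : 𝓞 K) ∈ Q.under (𝓞 K) := by
    rw [Ideal.under_def, Ideal.mem_comap, map_natCast]
    exact mem_of_over L hQ
  have hne : Q.under (𝓞 K) ≠ ⊥ := by
    intro h
    rw [h, Ideal.mem_bot, Nat.cast_eq_zero] at hmem
    exact hp.ne_zero hmem
  refine ⟨⟨Q.under (𝓞 K), inferInstance, hne⟩, hmem, ?_⟩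
  have hpos : 0 < Nat.card (Subgroup.zpowers g ⊓ H : Subgroup Gal(L/ℚ)) := Nat.card_pos
  exact Nat.eq_of_mul_eq_mul_right hpos (h1.trans h2.symm)

/-- the cube roots of unity -/
theorem mod_three {p : ℕ} (hp : p.Prime) (hp3 : 3 < p) (hd : ¬ (p : ℤ) ∣ NumberField.discr L) (g : Gal(L/ℚ))
    (hE : (setE L (Subgroup.zpowers g) p).Nonempty) (w : L) (hw : w ^ 2 + w + 1 = 0) (hgw : g w = w) :
    p % 3 = 1 := by
  have : Fact p.Prime := ⟨hp⟩
  obtain ⟨φ, τ, hτ, hφ⟩ := exists_frob L hd (AlgebraicClosure (ZMod p)) (Subgroup.zpowers g) hE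
  have hint : IsIntegral ℤ w := by
    refine ⟨Polynomial.X ^ 2 + Polynomial.X + 1, ?_, ?_⟩
    · have : (Polynomial.X ^ 2 + Polynomial.X + 1 : Polynomial ℤ) =
          Polynomial.X ^ 2 + (Polynomial.X + 1) := by ring
      rw [this]
      refine Polynomial.monic_X_pow_add ?_
      have h1 : (Polynomial.X + 1 : Polynomial ℤ).degree = 1 := by
        have := Polynomial.degree_X_add_C (1 : ℤ)
        simpa using this
      rw [h1]
      norm_num
    · simpa using hw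
  set W : 𝓞 L := ⟨w, hint⟩ with hW
  have hWw : ((W : 𝓞 L) : L) = w := rfl
  have hWe : W ^ 2 + W + 1 = 0 := by
    apply NumberField.RingOfIntegers.ext
    push_cast
    exact hw
  have hfix : τ • W = W := by
    have h1 : τ ∈ Subgroup.zpowers g := hτ ▸ Subgroup.mem_zpowers τ
    have h2 : Subgroup.zpowers g ≤ stabilizer Gal(L/ℚ) W := by
      rw [Subgroup.zpowers_le, MulAction.mem_stabilizer_iff]
      apply NumberField.RingOfIntegers.ext
      exact hgw
    exact h2 h1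
  have h3 := hφ W
  rw [hfix] at h3
  have h4 : φ W ^ 2 + φ W + 1 = 0 := by
    have := congrArg φ hWe
    simpa using this
  have hne3 : (3 : AlgebraicClosure (ZMod p)) ≠ 0 := by
    intro h
    have h5 : ((3 : ℕ) : AlgebraicClosure (ZMod p)) = 0 := by exact_mod_cast h
    rw [CharP.cast_eq_zero_iff (AlgebraicClosure (ZMod p)) p] at h5
    have := Nat.le_of_dvd (by norm_num) h5
    omega
  have hu3 : φ W ^ 3 = 1 := by
    have : φ W ^ 3 - 1 = (φ W - 1) * (φ W ^ 2 + φ W + 1) := by ring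
    rw [h4, mul_zero] at this
    exact sub_eq_zero.1 this
  have hu1 : φ W ≠ 1 := by
    intro h
    rw [h] at h4
    exact hne3 (by linear_combination h4)
  have hu0 : φ W ≠ 0 := by
    intro h
    rw [h] at h4
    simp at h4
  have h5 := Nat.div_add_mod p 3
  have h6 : φ W ^ p = φ W ^ (p % 3) := by
    have h7 : φ W ^ p = φ W ^ (3 * (p / 3) + p % 3) := congrArg (fun n => φ W ^ n) h5.symm
    rw [h7, pow_add, pow_mul, hu3, one_pow, one_mul]
  rw [h6] at h3
  have h7 : p % 3 < 3 := Nat.mod_lt _ (by norm_num)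
  have h8 : p % 3 ≠ 0 := by
    intro h
    rw [h, pow_zero] at h3
    exact hu1 h3
  have h9 : p % 3 ≠ 2 := by
    intro h
    rw [h] at h3
    have : φ W * (φ W - 1) = 0 := by linear_combination -h3
    rcases mul_eq_zero.1 this with h | h
    · exact hu0 h
    · exact hu1 (sub_eq_zero.1 h)
  omega

end orbit

/-- `S` has upper density at least `δ` among the primes -/
def UpperDensity (S : Set ℕ) (δ : ℝ) : Prop :=
  ∀ ε : ℝ, 0 < ε → ∀ x₀ : ℕ, ∃ x : ℕ, x₀ ≤ x ∧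
    (δ - ε) * (x / Real.log x) ≤ ({p : ℕ | p.Prime ∧ p ≤ x ∧ p ∈ S}.ncard : ℝ)

theorem cn_eq_ncard (G : ℕ → Prop) (x : ℕ) :
    cn G x = {p : ℕ | p.Prime ∧ p ≤ x ∧ G p}.ncard := by
  classical
  unfold cn
  rw [← Set.ncard_coe_finset]
  congr 1
  ext p
  simp only [Finset.coe_filter, Finset.mem_Icc, Set.mem_ofPred_eq]
  constructor
  · rintro ⟨⟨_, h2⟩, h3, h4⟩
    exact ⟨h3, h2, h4⟩
  · rintro ⟨h3, h2, h4⟩
    exact ⟨⟨h3.one_lt.le, h2⟩, h3, h4⟩

/-- FROBENIUS DENSITY, FOR THE APPLICATION, with the exact density -/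
theorem frob_upper' {L : Type} [Field L] [NumberField L] [IsGalois ℚ L] {K : Type*} [Field K] [NumberField K]
    (g : Gal(L/ℚ)) (σ₀ : K →ₐ[ℚ] L) {B : ℕ → Prop} (hB : Null B) :
    UpperDensity {p : ℕ | ¬ B p ∧
      (∃ v : IsDedekindDomain.HeightOneSpectrum (𝓞 K), (p : 𝓞 K) ∈ v.asIdeal ∧
        v.asIdeal.inertiaDeg ℤ =
          Function.minimalPeriod (fun σ : K →ₐ[ℚ] L => (g : L →ₐ[ℚ] L).comp σ) σ₀) ∧
      ∀ w : L, w ^ 2 + w + 1 = 0 → g w = w → p % 3 = 1}
      ((gens L (Subgroup.zpowers g) : ℝ) / (Module.finrank ℚ L : ℝ)) := by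
  intro ε hε x₀
  have hB' : Null (fun p => B p ∨ p ≤ 3) :=
    hB.or (Pool.Agent.H71.FD.Null_of_bounded 3 fun p _ hp => hp)
  obtain ⟨x, hx, h⟩ := GP_count L (Subgroup.zpowers g) hB' ε hε x₀
  refine ⟨x, hx, ?_⟩
  have hcard : Nat.card Gal(L/ℚ) = Module.finrank ℚ L := IsGalois.card_aut_eq_finrank ℚ L
  rw [hcard] at h
  refine h.trans ?_
  rw [cn_eq_ncard]
  refine Nat.cast_le.2 (Set.ncard_le_ncard ?_ ?_)
  · rintro p ⟨hp, hpx, ⟨hd, hE⟩, hnot⟩
    push Not at hnot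
    exact ⟨hp, hpx, hnot.1, deg_eq hp hd g σ₀ hE, fun w hw hgw => mod_three hp hnot.2 hd g hE w hw hgw⟩
  · exact (Set.finite_Iic x).subset fun p hp => hp.2.1

/-- FROBENIUS DENSITY, FOR THE APPLICATION -/
theorem frob_upper {L : Type} [Field L] [NumberField L] [IsGalois ℚ L] {K : Type*} [Field K] [NumberField K]
    (g : Gal(L/ℚ)) (σ₀ : K →ₐ[ℚ] L) {B : ℕ → Prop} (hB : Null B) :
    UpperDensity {p : ℕ | ¬ B p ∧
      (∃ v : IsDedekindDomain.HeightOneSpectrum (𝓞 K), (p : 𝓞 K) ∈ v.asIdeal ∧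
        v.asIdeal.inertiaDeg ℤ =
          Function.minimalPeriod (fun σ : K →ₐ[ℚ] L => (g : L →ₐ[ℚ] L).comp σ) σ₀) ∧
      ∀ w : L, w ^ 2 + w + 1 = 0 → g w = w → p % 3 = 1}
      (1 / (Module.finrank ℚ L : ℝ)) := by
  intro ε hε x₀
  obtain ⟨x, hx, h⟩ := frob_upper' g σ₀ hB ε hε (max x₀ 2)
  refine ⟨x, (le_max_left _ _).trans hx, le_trans ?_ h⟩
  have hx2 : 2 ≤ x := (le_max_right _ _).trans hx
  have hx1 : (1 : ℝ) < x := by exact_mod_cast hx2
  have hl : 0 < Real.log x := Real.log_pos hx1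
  refine mul_le_mul_of_nonneg_right ?_ (by positivity)
  have h1 : (1 : ℝ) ≤ (gens L (Subgroup.zpowers g) : ℝ) := by exact_mod_cast one_le_gens L g
  have h2 : (0 : ℝ) < (Module.finrank ℚ L : ℝ) := by exact_mod_cast Module.finrank_pos
  have := div_le_div_of_nonneg_right h1 h2.le
  linarith

end Pool.Agent.H89.FrobD
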