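import Pool.Agent.H89.FrobD.Loc
import Pool.Agent.H24.FD.DegOne

/-!
# Frobenius density: number fields

For `L / ℚ` Galois and a prime `p` not dividing the discriminant:
`Σ_(E ≤ H) #E · #{Q | p : D(Q) = E} = #H · np (L^H) p`.
-/

set_option linter.unusedSectionVars false

open scoped Pointwise NumberField
open MulAction Ideal Finset

namespace Pool.Agent.H89.FrobD

open Pool.Agent.H24.FD (np np_eq cI)

/-- the prime ideal `(p)` of `ℤ` -/
abbrev pZ (p : ℕ) : Ideal ℤ := Ideal.span {(p : ℤ)}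

theorem pZ_ne_bot {p : ℕ} (hp : p.Prime) : pZ p ≠ ⊥ := by
  simp [pZ, hp.ne_zero]

theorem pZ_prime {p : ℕ} (hp : p.Prime) : (pZ p).IsPrime :=
  (Ideal.span_singleton_prime (by exact_mod_cast hp.ne_zero)).2 (Nat.prime_iff_prime_int.1 hp)

theorem pZ_max {p : ℕ} (hp : p.Prime) : (pZ p).IsMaximal :=
  (pZ_prime hp).isMaximal (pZ_ne_bot hp)

theorem fin_over (K : Type) [Field K] [NumberField K] {p : ℕ} (hp : p.Prime) :
    ((pZ p).primesOver (𝓞 K)).Finite := by
  have := pZ_max hp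
  exact IsDedekindDomain.primesOver_finite (pZ p) (𝓞 K)

/-- primes of degree one -/
theorem card_deg_one (K : Type) [Field K] [NumberField K] {p : ℕ} (hp : p.Prime) :
    ((fin_over K hp).toFinset.filter (fun v => v.inertiaDeg ℤ = 1)).card = np K p := by
  classical
  rw [np_eq K p hp, cI]
  have h : ∀ P : Ideal (𝓞 K), Ideal.absNorm P = p ↔
      P ∈ (fin_over K hp).toFinset.filter (fun v => v.inertiaDeg ℤ = 1) := by
    intro P
    rw [mem_filter, Set.Finite.mem_toFinset]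
    constructor
    · intro hP
      have hPp : P.IsPrime := Ideal.isPrime_of_irreducible_absNorm (by rw [hP]; exact hp)
      have hmem : ((p : ℕ) : 𝓞 K) ∈ P := by
        have := Ideal.absNorm_mem P
        rwa [hP] at this
      have hlie : P.LiesOver (pZ p) := by
        constructor
        refine (pZ_max hp).eq_of_le ?_ ?_
        · exact Ideal.IsPrime.ne_top inferInstance
        · rw [Ideal.span_singleton_le_iff_mem, Ideal.under_def, Ideal.mem_comap]
          simpa using hmem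
      refine ⟨⟨hPp, hlie⟩, ?_⟩
      have h1 := Ideal.pow_inertiaDeg p P
      rw [hP] at h1
      exact Nat.pow_right_injective hp.two_le (by simpa using h1)
    · rintro ⟨⟨hPp, hlie⟩, hdeg⟩
      rw [← Ideal.pow_inertiaDeg p P, hdeg, pow_one]
  rw [← Nat.card_eq_finsetCard]
  exact (Nat.card_congr (Equiv.subtypeEquivRight h)).symm

variable (L : Type) [Field L] [NumberField L] [IsGalois ℚ L]

/-- the set of primes above `p` with decomposition group `E` -/
def setE (E : Subgroup Gal(L/ℚ)) (p : ℕ) : Set (Ideal (𝓞 L)) :=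
  {Q : Ideal (𝓞 L) | Q ∈ (pZ p).primesOver (𝓞 L) ∧ stabilizer Gal(L/ℚ) Q = E}

/-- the number of primes above `p` with decomposition group `E` -/
noncomputable def bE (E : Subgroup Gal(L/ℚ)) (p : ℕ) : ℕ := (setE L E p).ncard

/-- the fixed field -/
abbrev fixF (H : Subgroup Gal(L/ℚ)) : IntermediateField ℚ L := FixedPoints.intermediateField H

instance galH (H : Subgroup Gal(L/ℚ)) : IsGaloisGroup H (𝓞 (fixF L H)) (𝓞 L) :=
  IsGaloisGroup.of_isFractionRing H (𝓞 (fixF L H)) (𝓞 L) (fixF L H) L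

/-- `p` is unramified -/
theorem unram {p : ℕ} (hp : p.Prime) (hd : ¬ (p : ℤ) ∣ NumberField.discr L) :
    ∀ Q ∈ (pZ p).primesOver (𝓞 L), Nat.card (Ideal.inertia Gal(L/ℚ) Q) = 1 := by
  intro Q hQ
  have := hQ.1
  have := hQ.2
  have := pZ_prime hp
  have := pZ_max hp
  have hQm : Q.IsMaximal := Ideal.IsMaximal.of_liesOver_isMaximal Q (pZ p)
  have h1 : Algebra.IsUnramifiedAt ℤ Q :=
    (NumberField.not_dvd_discr_iff_forall_liesOver L (𝓞 L) (Nat.prime_iff_prime_int.1 hp)).1 hd Q hQm hQ.2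
  rw [Ideal.card_inertia_eq_ramificationIdxIn (pZ p) Q,
    Ideal.ramificationIdxIn_eq_ramificationIdx (pZ p) Q Gal(L/ℚ)]
  exact Ideal.ramificationIdx_eq_one_of_isUnramifiedAt

theorem exists_over (H : Subgroup Gal(L/ℚ)) (v : Ideal (𝓞 (fixF L H))) (hv : v.IsPrime) :
    ∃ Q : Ideal (𝓞 L), Q.IsPrime ∧ Q.LiesOver v := by
  obtain ⟨Q, hQ, hQv⟩ := (inferInstance : Nonempty (v.primesOver (𝓞 L)))
  exact ⟨Q, hQ, hQv⟩

/-- THE IDENTITY -/
theorem id_bE (H : Subgroup Gal(L/ℚ)) {p : ℕ} (hp : p.Prime) (hd : ¬ (p : ℤ) ∣ NumberField.discr L)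
    [Fintype (Subgroup Gal(L/ℚ))] [DecidablePred fun E : Subgroup Gal(L/ℚ) => E ≤ H] :
    ∑ E ∈ univ.filter (fun E : Subgroup Gal(L/ℚ) => E ≤ H), Nat.card E * bE L E p =
      Nat.card H * np (fixF L H) p := by
  classical
  have := pZ_prime hp
  have hfin := fin_over L hp
  have h1 := local_id (A := ℤ) (B := 𝓞 (fixF L H)) (C := 𝓞 L) H (pZ p) (fun v hv => inferInstance)
    hfin (fin_over (fixF L H) hp) (exists_over L H) (unram L hp hd)
  rw [card_deg_one (fixF L H) hp] at h1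
  rw [← h1]
  rw [← sum_fiberwise_of_maps_to (s := hfin.toFinset.filter (fun Q => stabilizer Gal(L/ℚ) Q ≤ H))
    (t := univ.filter (fun E : Subgroup Gal(L/ℚ) => E ≤ H)) (g := fun Q => stabilizer Gal(L/ℚ) Q)
    (fun Q hQ => mem_filter.2 ⟨mem_univ _, (mem_filter.1 hQ).2⟩)]
  refine sum_congr rfl fun E hE => ?_
  have hEH := (mem_filter.1 hE).2
  rw [sum_congr rfl (g := fun _ => Nat.card E) (fun Q hQ => by rw [(mem_filter.1 hQ).2])]
  rw [sum_const, smul_eq_mul, mul_comm]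
  congr 1
  have hfinE : (setE L E p).Finite := hfin.subset fun Q hQ => hQ.1
  rw [bE, Set.ncard_eq_toFinset_card _ hfinE]
  congr 1
  ext Q
  simp only [Set.Finite.mem_toFinset, mem_filter, setE, Set.mem_setOf_eq]
  constructor
  · rintro ⟨a, b⟩
    exact ⟨⟨a, b ▸ hEH⟩, b⟩
  · rintro ⟨⟨a, _⟩, b⟩
    exact ⟨a, b⟩

/-- at most `#G / #E` primes above `p` with decomposition group `E` -/
theorem bE_le (E : Subgroup Gal(L/ℚ)) {p : ℕ} (hp : p.Prime) :
    Nat.card E * bE L E p ≤ Nat.card Gal(L/ℚ) := by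
  classical
  rcases Set.eq_empty_or_nonempty (setE L E p) with h | ⟨Q, hQ, hQE⟩
  · rw [bE, h, Set.ncard_empty]
    simp
  · have := hQ.1
    have := hQ.2
    have horb : MulAction.orbit Gal(L/ℚ) Q = (pZ p).primesOver (𝓞 L) :=
      Algebra.IsInvariant.orbit_eq_primesOver ℤ (𝓞 L) Gal(L/ℚ) (pZ p) Q
    have h1 := Nat.card_congr (MulAction.orbitProdStabilizerEquivGroup Gal(L/ℚ) Q)
    rw [Nat.card_prod, hQE, horb] at h1
    rw [← h1, mul_comm]
    refine Nat.mul_le_mul_right _ ?_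
    rw [bE]
    exact Set.ncard_le_ncard (fun Q hQ => hQ.1) (fin_over L hp)

end Pool.Agent.H89.FrobD
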