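import Mathlib

/-!
# The cycle type of a permutation, counted by minimal periods
-/

set_option autoImplicit false

open Finset Equiv Equiv.Perm

namespace Pool.Agent.H89.FrobD

variable {X : Type*} [Fintype X] [DecidableEq X]

theorem periodic_iff (π : Perm X) (n : ℕ) (x : X) :
    Function.IsPeriodicPt π n x ↔ (π ^ n) x = x := by
  rw [Function.IsPeriodicPt, Function.IsFixedPt, ← Equiv.Perm.iterate_eq_pow]

theorem minimalPeriod_eq_card (π : Perm X) {x : X} (hx : π x ≠ x) :
    Function.minimalPeriod π x = (π.cycleOf x).support.card := by
  have hc : (π.cycleOf x).IsCycle := Equiv.Perm.isCycle_cycleOf π hx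
  rw [← hc.orderOf]
  have hne : (π.cycleOf x) x ≠ x := by
    rw [Equiv.Perm.cycleOf_apply_self]
    exact hx
  have key : ∀ n : ℕ, Function.minimalPeriod π x ∣ n ↔ orderOf (π.cycleOf x) ∣ n := by
    intro n
    rw [← Function.isPeriodicPt_iff_minimalPeriod_dvd, periodic_iff, ← Equiv.Perm.cycleOf_pow_apply_self,
      orderOf_dvd_iff_pow_eq_one]
    constructor
    · intro h
      exact (hc.pow_eq_one_iff' hne).2 h
    · intro h
      rw [h]
      rfl
  exact Nat.dvd_antisymm ((key _).2 dvd_rfl) ((key _).1 dvd_rfl)

/-- THE COUNT -/
theorem perm_count (π : Perm X) (d : ℕ) (hd : 0 < d) :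
    d * π.partition.parts.count d = (univ.filter (fun x => Function.minimalPeriod π x = d)).card := by
  rw [Equiv.Perm.parts_partition, Multiset.count_add, Multiset.count_replicate]
  rcases Nat.lt_or_ge d 2 with h2 | h2
  · have hd1 : d = 1 := by omega
    subst hd1
    have h1 : π.cycleType.count 1 = 0 := by
      rw [Multiset.count_eq_zero]
      intro h
      have := Equiv.Perm.two_le_of_mem_cycleType h
      omega
    rw [h1, if_pos rfl, zero_add, one_mul, ← Finset.card_univ, ← Finset.card_sdiff_of_subset (subset_univ _)]
    congr 1
    ext x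
    simp only [mem_sdiff, mem_univ, true_and, mem_filter, Equiv.Perm.mem_support, not_not]
    rw [Function.minimalPeriod_eq_one_iff_isFixedPt]
    rfl
  · rw [if_neg (by omega), add_zero, Equiv.Perm.cycleType_def, Multiset.count_map]
    have h3 : (univ.filter (fun x => Function.minimalPeriod π x = d)) =
        π.support.filter (fun x => (π.cycleOf x).support.card = d) := by
      ext x
      simp only [mem_filter, mem_univ, true_and, Equiv.Perm.mem_support]
      constructor
      · intro h
        have hx : π x ≠ x := by
          intro hx
          have : Function.minimalPeriod π x = 1 := Function.minimalPeriod_eq_one_iff_isFixedPt.2 hx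
          omega
        exact ⟨hx, by rw [← minimalPeriod_eq_card π hx]; exact h⟩
      · rintro ⟨hx, h⟩
        rw [minimalPeriod_eq_card π hx]
        exact h
    have hmaps : ∀ x ∈ π.support.filter (fun x => (π.cycleOf x).support.card = d),
        π.cycleOf x ∈ π.cycleFactorsFinset.filter (fun c => d = c.support.card) := by
      intro x hx
      obtain ⟨hx1, hx2⟩ := mem_filter.1 hx
      exact mem_filter.2 ⟨Equiv.Perm.cycleOf_mem_cycleFactorsFinset_iff.2 hx1, hx2.symm⟩
    rw [h3, Finset.card_eq_sum_card_fiberwise (f := fun x => π.cycleOf x)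
      (t := π.cycleFactorsFinset.filter (fun c => d = c.support.card)) (fun x hx => hmaps x hx)]
    have h4 : ∀ c ∈ π.cycleFactorsFinset.filter (fun c => d = c.support.card),
        ((π.support.filter (fun x => (π.cycleOf x).support.card = d)).filter (fun x => π.cycleOf x = c)).card = d := by
      intro c hc
      obtain ⟨hc1, hc2⟩ := mem_filter.1 hc
      have h5 : (π.support.filter (fun x => (π.cycleOf x).support.card = d)).filter (fun x => π.cycleOf x = c) =
          c.support := by
        ext x
        simp only [mem_filter]
        constructor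
        · rintro ⟨⟨hx1, _⟩, hx2⟩
          rw [← hx2, Equiv.Perm.mem_support_cycleOf_iff]
          exact ⟨Equiv.Perm.SameCycle.refl _ _, hx1⟩
        · intro hx
          have h6 := Equiv.Perm.cycle_is_cycleOf hx hc1
          have h7 : x ∈ π.support := by
            rw [← Equiv.Perm.cycleOf_mem_cycleFactorsFinset_iff, ← h6]
            exact hc1
          refine ⟨⟨h7, ?_⟩, h6.symm⟩
          rw [← h6]
          exact hc2.symm
      rw [h5]
      exact hc2.symm
    rw [sum_congr rfl h4, sum_const, smul_eq_mul, mul_comm]
    rfl

end Pool.Agent.H89.FrobD
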