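import Pool.Agent.H89.AB.Frob

/-!
# Frobenius classes: the residue degrees of all the primes above `p`

`count_deg`: `C / A` Galois with group `G`, `C / B` Galois with group `H ≤ G`, `p` unramified in `C`,
`Q₀ | p` with decomposition group `D`: for every `d`
`#H · d · #{v | p : f(v) = d} = #{τ ∈ G : d · #(τ D τ⁻¹ ∩ H) = #D}`.
So the residue degrees in `K` of the primes above `p` depend only on the decomposition group.
-/

set_option autoImplicit false
set_option linter.unusedSectionVars false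

open scoped Pointwise NumberField
open MulAction Ideal Finset Filter NumberField IsDedekindDomain

namespace Pool.Agent.H89.FrobD

section loc

variable {A B C G : Type*} [CommRing A] [CommRing B] [CommRing C] [IsDomain A] [IsDomain B] [IsDomain C]
  [Algebra A B] [Algebra B C] [Algebra A C] [IsScalarTower A B C]
  [Group G] [Finite G] [MulSemiringAction G C] [IsGaloisGroup G A C] (H : Subgroup G)
  [IsGaloisGroup H B C]

theorem card_stab_smul (τ : G) (Q : Ideal C) :
    Nat.card (stabilizer G (τ • Q)) = Nat.card (stabilizer G Q) := by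
  rw [stabilizer_smul_eq_stabilizer_map_conj]
  exact (Nat.card_congr ((stabilizer G Q).equivMapOfInjective _ (MulAut.conj τ).injective).toEquiv).symm

/-- the fibres of `τ ↦ τ • Q₀` -/
theorem card_fiber (Q₀ Q : Ideal C) (h : ∃ τ : G, τ • Q₀ = Q) :
    Nat.card {τ : G // τ • Q₀ = Q} = Nat.card (stabilizer G Q₀) := by
  obtain ⟨τ₁, hτ₁⟩ := h
  refine Nat.card_congr
    { toFun := fun τ => ⟨τ₁⁻¹ * τ.1, by
        rw [mem_stabilizer_iff, mul_smul, τ.2, ← hτ₁, inv_smul_smul]⟩
      invFun := fun s => ⟨τ₁ * s.1, by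
        have := s.2
        rw [mem_stabilizer_iff] at this
        rw [mul_smul, this, hτ₁]⟩
      left_inv := fun τ => by
        apply Subtype.ext
        show τ₁ * (τ₁⁻¹ * τ.1) = τ.1
        rw [mul_inv_cancel_left]
      right_inv := fun s => by
        apply Subtype.ext
        show τ₁⁻¹ * (τ₁ * s.1) = s.1
        rw [inv_mul_cancel_left] }

/-- THE COUNT -/
theorem count_deg (p : Ideal A) [p.IsPrime] [PerfectField p.ResidueField]
    (hperf : ∀ v : Ideal B, ∀ _ : v.IsPrime, PerfectField v.ResidueField)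
    (hC : (p.primesOver C).Finite) (hB : (p.primesOver B).Finite)
    (hne : ∀ v : Ideal B, v.IsPrime → ∃ Q : Ideal C, Q.IsPrime ∧ Q.LiesOver v)
    (hun : ∀ Q ∈ p.primesOver C, Nat.card (Ideal.inertia G Q) = 1)
    (Q₀ : Ideal C) (hQ₀ : Q₀ ∈ p.primesOver C) (d : ℕ) :
    Nat.card H * d * (hB.toFinset.filter (fun v => v.inertiaDeg A = d)).card =
      Nat.card {τ : G // d * Nat.card (stabilizer H (τ • Q₀)) = Nat.card (stabilizer G Q₀)} := by
  classical
  have hQ₀p := hQ₀.1
  have hQ₀l := hQ₀.2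
  have horb : MulAction.orbit G Q₀ = p.primesOver C := Algebra.IsInvariant.orbit_eq_primesOver A C G p Q₀
  set e := Nat.card (stabilizer G Q₀) with he
  have hepos : 0 < e := Nat.card_pos
  have hstab : ∀ Q ∈ p.primesOver C, Nat.card (stabilizer G Q) = e := by
    intro Q hQ
    rw [← horb] at hQ
    obtain ⟨τ, hτ⟩ := hQ
    have hτ' : τ • Q₀ = Q := hτ
    rw [← hτ', card_stab_smul]
  have hdeg : ∀ Q ∈ p.primesOver C, (Q.under B).inertiaDeg A * Nat.card (stabilizer H Q) = e := by
    intro Q hQ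
    have := hQ.1
    have := hQ.2
    have hv : (Q.under B).IsPrime := inferInstance
    have := hperf (Q.under B) hv
    rw [deg_mul H p Q (Q.under B) (hun Q hQ), hstab Q hQ]
  set T := hC.toFinset.filter (fun Q => (Q.under B).inertiaDeg A = d) with hT
  -- step 1
  have h1 : T.card * e = Nat.card H * d * (hB.toFinset.filter (fun v => v.inertiaDeg A = d)).card := by
    have hmaps : ∀ Q ∈ T, Q.under B ∈ hB.toFinset.filter (fun v => v.inertiaDeg A = d) := by
      intro Q hQ
      obtain ⟨hQ1, hQ2⟩ := mem_filter.1 hQ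
      rw [Set.Finite.mem_toFinset] at hQ1
      have := hQ1.1
      have := hQ1.2
      have : (Q.under B).LiesOver p := Ideal.LiesOver.tower_bot Q (Q.under B) p
      refine mem_filter.2 ⟨?_, hQ2⟩
      rw [Set.Finite.mem_toFinset]
      exact ⟨inferInstance, inferInstance⟩
    rw [Finset.card_eq_sum_card_fiberwise (f := fun Q : Ideal C => Q.under B)
      (t := hB.toFinset.filter (fun v => v.inertiaDeg A = d)) (fun Q hQ => hmaps Q hQ),
      sum_mul, mul_comm (Nat.card H * d), ← smul_eq_mul, ← sum_const]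
    refine sum_congr rfl fun v hv => ?_
    obtain ⟨hv1, hv2⟩ := mem_filter.1 hv
    rw [Set.Finite.mem_toFinset] at hv1
    have := hv1.1
    have := hv1.2
    have hkey : ∀ Q : Ideal C, Q ∈ v.primesOver C → Q ∈ p.primesOver C ∧ Q.under B = v := by
      intro Q hQ
      have := hQ.1
      have := hQ.2
      exact ⟨⟨hQ.1, Ideal.LiesOver.trans Q v p⟩, hQ.2.over.symm⟩
    have hset : T.filter (fun Q => Q.under B = v) =
        (hC.subset (fun Q (hQ : Q ∈ v.primesOver C) => (hkey Q hQ).1) : (v.primesOver C).Finite).toFinset := by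
      ext Q
      simp only [hT, mem_filter, Set.Finite.mem_toFinset]
      constructor
      · rintro ⟨⟨hQ, _⟩, hQv⟩
        exact ⟨hQ.1, ⟨hQv.symm⟩⟩
      · intro hQ
        obtain ⟨h2, h3⟩ := hkey Q hQ
        exact ⟨⟨h2, by rw [h3]; exact hv2⟩, h3⟩
    rw [hset, ← Set.ncard_eq_toFinset_card _ _]
    obtain ⟨Q, hQ, hQv⟩ := hne v hv1.1
    have h4 := card_over H v Q
    obtain ⟨h5, h6⟩ := hkey Q ⟨hQ, hQv⟩
    have h7 := hdeg Q h5
    rw [h6, hv2] at h7
    calc (v.primesOver C).ncard * e = (v.primesOver C).ncard * (d * Nat.card (stabilizer H Q)) := by rw [h7]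
      _ = ((v.primesOver C).ncard * Nat.card (stabilizer H Q)) * d := by ring
      _ = Nat.card H * d := by rw [h4]
  rw [← h1]
  -- step 2
  have hft : Fintype G := Fintype.ofFinite G
  have h2 : Nat.card {τ : G // d * Nat.card (stabilizer H (τ • Q₀)) = e} =
      (univ.filter (fun τ : G => d * Nat.card (stabilizer H (τ • Q₀)) = e)).card := by
    rw [Nat.card_eq_fintype_card, Fintype.card_subtype]
  rw [h2]
  have hmem : ∀ τ : G, τ • Q₀ ∈ p.primesOver C := by
    intro τ
    rw [← horb]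
    exact ⟨τ, rfl⟩
  have hiff : ∀ τ : G, d * Nat.card (stabilizer H (τ • Q₀)) = e ↔ τ • Q₀ ∈ T := by
    intro τ
    have h3 := hdeg _ (hmem τ)
    have hpos : 0 < Nat.card (stabilizer H (τ • Q₀)) := Nat.card_pos
    rw [hT, mem_filter, Set.Finite.mem_toFinset]
    constructor
    · intro h4
      exact ⟨hmem τ, Nat.eq_of_mul_eq_mul_right hpos (h3.trans h4.symm)⟩
    · rintro ⟨_, h4⟩
      rw [← h4]
      exact h3
  rw [Finset.card_eq_sum_card_fiberwise (f := fun τ : G => τ • Q₀) (t := T)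
    (fun τ hτ => (hiff τ).1 (mem_filter.1 (mem_coe.1 hτ)).2)]
  rw [← smul_eq_mul, ← sum_const]
  refine (sum_congr rfl fun Q hQ => ?_).symm
  have hQ' := (mem_filter.1 hQ).1
  rw [Set.Finite.mem_toFinset, ← horb] at hQ'
  obtain ⟨τ, hτ⟩ := hQ'
  have h3 := card_fiber (G := G) Q₀ Q ⟨τ, hτ⟩
  rw [← he, Nat.card_eq_fintype_card, Fintype.card_subtype] at h3
  refine Eq.trans ?_ h3
  congr 1
  ext ρ
  simp only [mem_filter, mem_univ, true_and]
  constructor
  · exact fun h => h.2
  · intro h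
    refine ⟨(hiff ρ).2 (by rw [h]; exact hQ), h⟩

end loc

section nf

variable {L : Type} [Field L] [NumberField L] [IsGalois ℚ L]

/-- the number of the primes of `K` above `p` of residue degree `d` -/
noncomputable def nd (K : Type*) [Field K] [NumberField K] (p d : ℕ) : ℕ :=
  {v : HeightOneSpectrum (𝓞 K) | (p : 𝓞 K) ∈ v.asIdeal ∧ v.asIdeal.inertiaDeg ℤ = d}.ncard

theorem nd_eq {K : Type} [Field K] [NumberField K] {p : ℕ} (hp : p.Prime) (d : ℕ) :
    nd K p d = ((fin_over K hp).toFinset.filter (fun v => v.inertiaDeg ℤ = d)).card := by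
  classical
  rw [nd, ← Set.ncard_coe_finset, ← Set.ncard_image_of_injective (f := fun v : HeightOneSpectrum (𝓞 K) => v.asIdeal)
    _ (fun a b h => HeightOneSpectrum.ext h)]
  congr 1
  ext v
  simp only [Set.mem_image, Finset.coe_filter, Set.Finite.mem_toFinset]
  constructor
  · rintro ⟨w, ⟨hw, hd⟩, rfl⟩
    have := w.isPrime
    exact ⟨⟨w.isPrime, H89AB.lies_over_pZ hp w.asIdeal hw⟩, hd⟩
  · rintro ⟨hv, hd⟩
    have hm : (p : 𝓞 K) ∈ v := by
      have h1 : (p : ℤ) ∈ v.under ℤ := by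
        rw [← hv.2.over]
        exact Ideal.mem_span_singleton_self _
      have h2 : algebraMap ℤ (𝓞 K) (p : ℤ) ∈ v := h1
      simpa using h2
    refine ⟨⟨v, hv.1, fun h => ?_⟩, ⟨hm, hd⟩, rfl⟩
    rw [h, Ideal.mem_bot, Nat.cast_eq_zero] at hm
    exact hp.ne_zero hm

/-- the residue degrees above `p` in terms of the group -/
theorem nd_mul {K : Type} [Field K] [NumberField K] [Algebra K L] [IsScalarTower ℚ K L] {p : ℕ} (hp : p.Prime)
    (hd : ¬ (p : ℤ) ∣ NumberField.discr L) (E : Subgroup Gal(L/ℚ)) (hE : (setE L E p).Nonempty) (d : ℕ) :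
    Nat.card (H89AB.HK K L) * d * nd K p d =
      Nat.card {τ : Gal(L/ℚ) //
        d * Nat.card (E.map (MulAut.conj τ).toMonoidHom ⊓ H89AB.HK K L : Subgroup Gal(L/ℚ)) = Nat.card E} := by
  obtain ⟨Q, hQ, hQE⟩ := hE
  have hpZ := pZ_prime hp
  have : IsGaloisGroup (H89AB.HK K L) (𝓞 K) (𝓞 L) := H89AB.gal_HK K
  rw [nd_eq hp, count_deg (A := ℤ) (B := 𝓞 K) (C := 𝓞 L) (H89AB.HK K L) (pZ p) (fun v hv => inferInstance)
    (fin_over L hp) (fin_over K hp) (fun v hv => ?_) (unram L hp hd) Q hQ d, hQE]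
  · refine Nat.card_congr (Equiv.subtypeEquivRight fun τ => ?_)
    rw [card_stab_inf, stabilizer_smul_eq_stabilizer_map_conj, hQE]
  · obtain ⟨Q, hQ, hQv⟩ := (inferInstance : Nonempty (v.primesOver (𝓞 L)))
    exact ⟨Q, hQ, hQv⟩

/-- THE RESIDUE DEGREES DEPEND ONLY ON THE FROBENIUS CLASS -/
theorem nd_congr {K : Type} [Field K] [NumberField K] [Algebra K L] [IsScalarTower ℚ K L] {p l : ℕ} (hp : p.Prime)
    (hl : l.Prime) (hdp : ¬ (p : ℤ) ∣ NumberField.discr L) (hdl : ¬ (l : ℤ) ∣ NumberField.discr L)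
    (E : Subgroup Gal(L/ℚ)) (hEp : (setE L E p).Nonempty) (hEl : (setE L E l).Nonempty) (d : ℕ) (hd : 0 < d) :
    nd K p d = nd K l d := by
  have h1 := nd_mul (K := K) hp hdp E hEp d
  have h2 := nd_mul (K := K) hl hdl E hEl d
  have hpos : 0 < Nat.card (H89AB.HK K L) * d := Nat.mul_pos Nat.card_pos hd
  exact Nat.eq_of_mul_eq_mul_left hpos (h1.trans h2.symm)

end nf

end Pool.Agent.H89.FrobD
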