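import Pool.Agent.H89.FrobD.Fields

/-!
# The Frobenius density theorem

For `L / ℚ` Galois and every subgroup `E` of the Galois group,
`Σ_p #E · #{Q | p : D(Q) = E} p^(-s) = #{x : ⟨x⟩ = E} log (1 / (s - 1)) + O(1)`, `s → 1+`.
-/

set_option linter.unusedSectionVars false

open scoped Pointwise NumberField
open MulAction Ideal Finset

namespace Pool.Agent.H89.FrobD

open Pool.Agent.H24.FD (np np_summable np_sum)

/-- the weight -/
noncomputable def wt (s : ℝ) (p : Nat.Primes) : ℝ := ((p : ℕ) : ℝ) ^ (-s)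

theorem wt_nonneg (s : ℝ) (p : Nat.Primes) : 0 ≤ wt s p := Real.rpow_nonneg (Nat.cast_nonneg _) _

theorem wt_le_one (s : ℝ) (hs : 1 < s) (p : Nat.Primes) : wt s p ≤ 1 :=
  Real.rpow_le_one_of_one_le_of_nonpos (by exact_mod_cast p.2.one_lt.le) (by linarith)

variable (L : Type) [Field L] [NumberField L] [IsGalois ℚ L]

open Classical in
/-- the coefficient -/
noncomputable def cf (E : Subgroup Gal(L/ℚ)) (p : Nat.Primes) : ℝ :=
  if ((p : ℕ) : ℤ) ∣ NumberField.discr L then 0 else ((Nat.card E * bE L E p : ℕ) : ℝ)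

theorem cf_nonneg (E : Subgroup Gal(L/ℚ)) (p : Nat.Primes) : 0 ≤ cf L E p := by
  unfold cf
  split_ifs
  · exact le_rfl
  · positivity

/-- the partial Dirichlet series -/
noncomputable def AA (E : Subgroup Gal(L/ℚ)) (s : ℝ) : ℝ := ∑' p : Nat.Primes, cf L E p * wt s p

theorem cf_le (E : Subgroup Gal(L/ℚ)) (p : Nat.Primes) :
    cf L E p ≤ (Nat.card E : ℝ) * (np (fixF L E) p : ℝ) := by
  classical
  unfold cf
  split_ifs with h
  · positivity
  · have : Fintype (Subgroup Gal(L/ℚ)) := Fintype.ofFinite _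
    have h1 := id_bE L E p.2 h
    have h2 : Nat.card E * bE L E p ≤
        ∑ E' ∈ univ.filter (fun E' : Subgroup Gal(L/ℚ) => E' ≤ E), Nat.card E' * bE L E' p :=
      Finset.single_le_sum (f := fun E' : Subgroup Gal(L/ℚ) => Nat.card E' * bE L E' p)
        (fun _ _ => Nat.zero_le _) (mem_filter.2 ⟨mem_univ E, le_rfl⟩)
    rw [h1] at h2
    exact_mod_cast h2

theorem summable_cf (E : Subgroup Gal(L/ℚ)) (s : ℝ) (hs : 1 < s) :
    Summable fun p : Nat.Primes => cf L E p * wt s p := by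
  have h := ((np_summable (fixF L E) hs)).mul_left (Nat.card E : ℝ)
  refine Summable.of_nonneg_of_le (fun p => mul_nonneg (cf_nonneg L E p) (wt_nonneg s p))
    (fun p => ?_) h
  rw [← mul_assoc]
  exact mul_le_mul_of_nonneg_right (cf_le L E p) (wt_nonneg s p)

theorem AA_nonneg (E : Subgroup Gal(L/ℚ)) (s : ℝ) : 0 ≤ AA L E s :=
  tsum_nonneg fun p => mul_nonneg (cf_nonneg L E p) (wt_nonneg s p)

theorem finite_ram : {p : Nat.Primes | ((p : ℕ) : ℤ) ∣ NumberField.discr L}.Finite := by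
  have h0 : NumberField.discr L ≠ 0 := NumberField.discr_ne_zero L
  refine Set.Finite.of_injOn (f := fun p : Nat.Primes => (p : ℕ)) (t := Set.Iic (NumberField.discr L).natAbs)
    (fun p hp => ?_) (fun p _ q _ h => Subtype.ext h) (Set.finite_Iic _)
  have h1 : ((p : ℕ) : ℤ) ∣ NumberField.discr L := hp
  have h2 : (p : ℕ) ∣ (NumberField.discr L).natAbs := by
    simpa using Int.natAbs_dvd_natAbs.2 h1
  exact Nat.le_of_dvd (Int.natAbs_pos.2 h0) h2

/-- the sum over all subgroups of `H` -/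
theorem sum_AA (H : Subgroup Gal(L/ℚ)) [Fintype (Subgroup Gal(L/ℚ))]
    [DecidablePred fun E : Subgroup Gal(L/ℚ) => E ≤ H] :
    ∃ C : ℝ, ∀ s : ℝ, 1 < s → s < 2 →
      |∑ E ∈ univ.filter (fun E : Subgroup Gal(L/ℚ) => E ≤ H), AA L E s -
        (Nat.card H : ℝ) * Real.log (1 / (s - 1))| ≤ C := by
  classical
  obtain ⟨C, hC⟩ := np_sum (fixF L H)
  have hsum : ∀ s : ℝ, 1 < s → Summable fun p : Nat.Primes =>
      (np (fixF L H) p : ℝ) * ((p : ℕ) : ℝ) ^ (-s) := fun s hs => np_summable (fixF L H) hs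
  set R := (finite_ram L).toFinset with hR
  set D : ℝ := ∑ p ∈ R, (Nat.card H : ℝ) * (np (fixF L H) p : ℝ) with hD
  refine ⟨(Nat.card H : ℝ) * C + D, fun s hs hs2 => ?_⟩
  -- the ramified part
  set r : Nat.Primes → ℝ := fun p => if ((p : ℕ) : ℤ) ∣ NumberField.discr L then
    (Nat.card H : ℝ) * ((np (fixF L H) p : ℝ) * wt s p) else 0 with hr
  have hr0 : ∀ p ∉ R, r p = 0 := by
    intro p hp
    have : ¬ ((p : ℕ) : ℤ) ∣ NumberField.discr L := fun h => hp (by
      rw [hR, Set.Finite.mem_toFinset]; exact h)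
    simp only [hr, if_neg this]
  have hrs : Summable r := summable_of_ne_finset_zero (s := R) hr0
  have hrt : ∑' p, r p = ∑ p ∈ R, r p := tsum_eq_sum hr0
  have hrn : 0 ≤ ∑' p, r p := by
    refine tsum_nonneg fun p => ?_
    simp only [hr]
    split_ifs
    · have := wt_nonneg s p
      positivity
    · exact le_rfl
  have hrle : ∑' p, r p ≤ D := by
    rw [hrt, hD]
    refine sum_le_sum fun p hp => ?_
    simp only [hr]
    split_ifs
    · refine mul_le_mul_of_nonneg_left ?_ (Nat.cast_nonneg _)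
      exact mul_le_of_le_one_right (Nat.cast_nonneg _) (wt_le_one s hs p)
    · positivity
  -- the identity
  have hid : ∑ E ∈ univ.filter (fun E : Subgroup Gal(L/ℚ) => E ≤ H), AA L E s =
      (Nat.card H : ℝ) * (∑' p : Nat.Primes, (np (fixF L H) p : ℝ) * wt s p) - ∑' p, r p := by
    have hs' : Summable fun p : Nat.Primes => (Nat.card H : ℝ) * ((np (fixF L H) p : ℝ) * wt s p) :=
      (hsum s hs).mul_left _
    unfold AA
    rw [← Summable.tsum_finsetSum (fun E _ => summable_cf L E s hs), ← tsum_mul_left,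
      ← Summable.tsum_sub hs' hrs]
    refine tsum_congr fun p => ?_
    rw [← sum_mul]
    simp only [hr, cf]
    by_cases h : ((p : ℕ) : ℤ) ∣ NumberField.discr L
    · simp only [if_pos h, sum_const_zero, zero_mul, sub_self]
    · simp only [if_neg h, sub_zero]
      rw [← Nat.cast_sum, id_bE L H p.2 h]
      push_cast
      ring
  have h3 := hC s hs hs2
  rw [hid]
  have h4 : (Nat.card H : ℝ) * (∑' p : Nat.Primes, (np (fixF L H) p : ℝ) * wt s p) - ∑' p, r p -
      (Nat.card H : ℝ) * Real.log (1 / (s - 1)) =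
      (Nat.card H : ℝ) * (∑' p : Nat.Primes, (np (fixF L H) p : ℝ) * ((p : ℕ) : ℝ) ^ (-s) -
        Real.log (1 / (s - 1))) - ∑' p, r p := by
    simp only [wt]
    ring
  rw [h4]
  refine (abs_sub _ _).trans (add_le_add ?_ ?_)
  · rw [abs_mul, abs_of_nonneg (Nat.cast_nonneg (α := ℝ) (Nat.card H))]
    exact mul_le_mul_of_nonneg_left h3 (Nat.cast_nonneg _)
  · rw [abs_of_nonneg hrn]
    exact hrle

/-- the number of generators of `E` (zero unless `E` is cyclic) -/
noncomputable def gens (E : Subgroup Gal(L/ℚ)) : ℕ := Nat.card {x : Gal(L/ℚ) // Subgroup.zpowers x = E}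

theorem sum_gens (H : Subgroup Gal(L/ℚ)) [Fintype (Subgroup Gal(L/ℚ))]
    [DecidablePred fun E : Subgroup Gal(L/ℚ) => E ≤ H] :
    ∑ E ∈ univ.filter (fun E : Subgroup Gal(L/ℚ) => E ≤ H), gens L E = Nat.card H := by
  classical
  have : Fintype Gal(L/ℚ) := Fintype.ofFinite _
  have h1 : Nat.card H = (univ.filter (fun x : Gal(L/ℚ) => x ∈ H)).card := by
    rw [Nat.card_eq_fintype_card, Fintype.card_subtype]
  rw [h1, Finset.card_eq_sum_card_fiberwise (f := fun x => Subgroup.zpowers x)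
    (t := univ.filter (fun E : Subgroup Gal(L/ℚ) => E ≤ H)) (fun x hx => by
      have := (mem_filter.1 (mem_coe.1 hx)).2
      exact mem_coe.2 (mem_filter.2 ⟨mem_univ _, by rwa [Subgroup.zpowers_le]⟩))]
  refine sum_congr rfl fun E hE => ?_
  have hEH := (mem_filter.1 hE).2
  rw [gens, Nat.card_eq_fintype_card, Fintype.card_subtype]
  congr 1
  ext x
  simp only [mem_filter, mem_univ, true_and]
  constructor
  · intro h
    exact ⟨hEH (h ▸ Subgroup.mem_zpowers x), h⟩
  · exact fun h => h.2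

/-- THE FROBENIUS DENSITY THEOREM -/
theorem frob_density (H : Subgroup Gal(L/ℚ)) :
    ∃ C : ℝ, ∀ s : ℝ, 1 < s → s < 2 →
      |AA L H s - (gens L H : ℝ) * Real.log (1 / (s - 1))| ≤ C := by
  classical
  have : Fintype (Subgroup Gal(L/ℚ)) := Fintype.ofFinite _
  induction hn : Nat.card H using Nat.strong_induction_on generalizing H with
  | _ n ih =>
    obtain ⟨C, hC⟩ := sum_AA L H
    -- proper subgroups
    have hprop : ∀ E : Subgroup Gal(L/ℚ), E < H → ∃ C : ℝ, ∀ s : ℝ, 1 < s → s < 2 →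
        |AA L E s - (gens L E : ℝ) * Real.log (1 / (s - 1))| ≤ C := by
      intro E hE
      refine ih (Nat.card E) ?_ E rfl
      rw [← hn]
      by_contra hcon
      exact hE.ne (Subgroup.eq_of_le_of_card_ge hE.le (not_lt.1 hcon))
    choose! c hc using hprop
    refine ⟨C + ∑ E ∈ univ.filter (fun E : Subgroup Gal(L/ℚ) => E < H), c E, fun s hs hs2 => ?_⟩
    have hfil : univ.filter (fun E : Subgroup Gal(L/ℚ) => E ≤ H) =
        insert H (univ.filter (fun E : Subgroup Gal(L/ℚ) => E < H)) := by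
      ext E
      simp only [mem_filter, mem_univ, true_and, mem_insert]
      rw [le_iff_eq_or_lt]
    have hnot : H ∉ univ.filter (fun E : Subgroup Gal(L/ℚ) => E < H) := by simp
    have h1 := hC s hs hs2
    have h2 := sum_gens L H
    rw [hfil, sum_insert hnot] at h1 h2
    have h3 : (Nat.card H : ℝ) = (gens L H : ℝ) +
        ∑ E ∈ univ.filter (fun E : Subgroup Gal(L/ℚ) => E < H), (gens L E : ℝ) := by
      rw [← h2]
      push_cast
      rfl
    rw [h3] at h1
    have h4 : AA L H s - (gens L H : ℝ) * Real.log (1 / (s - 1)) =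
        (AA L H s + ∑ E ∈ univ.filter (fun E : Subgroup Gal(L/ℚ) => E < H), AA L E s -
          ((gens L H : ℝ) + ∑ E ∈ univ.filter (fun E : Subgroup Gal(L/ℚ) => E < H), (gens L E : ℝ)) *
            Real.log (1 / (s - 1))) -
        ∑ E ∈ univ.filter (fun E : Subgroup Gal(L/ℚ) => E < H),
          (AA L E s - (gens L E : ℝ) * Real.log (1 / (s - 1))) := by
      rw [sum_sub_distrib, ← sum_mul]
      ring
    rw [h4]
    refine (abs_sub _ _).trans (add_le_add h1 ?_)
    refine (abs_sum_le_sum_abs _ _).trans (sum_le_sum fun E hE => ?_)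
    exact hc E (mem_filter.1 hE).2 s hs hs2

end Pool.Agent.H89.FrobD
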