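import Mathlib

/-!
# Frobenius density: the local identity

`C / A` Galois with group `G`, `C / B` Galois with group `H ≤ G`, `p` a prime of `A` which is unramified in `C`
(trivial inertia groups).  The prime `v` of `B` below `Q` has residue degree `[D(Q) : D(Q) ∩ H]` over `A`, and
`Σ_(Q | p, D(Q) ≤ H) #D(Q) = #H · #{v | p of degree one}`.
-/

set_option linter.unusedSectionVars false

open scoped Pointwise
open MulAction Ideal Finset

namespace Pool.Agent.H89.FrobD

section loc

variable {A B C G : Type*} [CommRing A] [CommRing B] [CommRing C] [IsDomain A] [IsDomain B] [IsDomain C]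
  [Algebra A B] [Algebra B C] [Algebra A C] [IsScalarTower A B C]
  [Group G] [Finite G] [MulSemiringAction G C] [IsGaloisGroup G A C] (H : Subgroup G)
  [IsGaloisGroup H B C]

/-- the stabilizer in a subgroup -/
theorem card_stab (Q : Ideal C) :
    Nat.card (stabilizer H Q) = Nat.card ((stabilizer G Q).subgroupOf H) := by
  have : stabilizer H Q = (stabilizer G Q).subgroupOf H := by
    ext g
    simp [Subgroup.mem_subgroupOf, Subgroup.smul_def]
  rw [this]

theorem card_stab_inf (Q : Ideal C) :
    Nat.card (stabilizer H Q) = Nat.card (stabilizer G Q ⊓ H : Subgroup G) := by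
  rw [card_stab]
  exact Nat.card_congr (Subgroup.subgroupOfEquivOfLe inf_le_right |>.toEquiv.symm.trans
    (by rw [Subgroup.inf_subgroupOf_right]) |>.symm)

/-- the residue degree of the prime below, in terms of decomposition groups -/
theorem deg_mul (p : Ideal A) [p.IsPrime] (Q : Ideal C) [Q.IsPrime] [Q.LiesOver p]
    [PerfectField p.ResidueField] (v : Ideal B) [v.IsPrime] [Q.LiesOver v] [PerfectField v.ResidueField]
    (hun : Nat.card (Ideal.inertia G Q) = 1) :
    v.inertiaDeg A * Nat.card (stabilizer H Q) = Nat.card (stabilizer G Q) := by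
  have h1 := card_stabilizer_eq_card_inertia_mul_finrank (G := G) p Q
  have h2 : Nat.card (stabilizer H Q) = Nat.card (Ideal.inertia H Q) * Q.inertiaDeg B :=
    card_stabilizer_eq_card_inertia_mul_finrank (G := H) v Q
  have h3 : Nat.card (Ideal.inertia H Q) = 1 := by
    have h4 : (Q.inertia G).subgroupOf H = Q.inertia H := AddSubgroup.subgroupOf_inertia _ _
    rw [← h4]
    have h5 : Q.inertia G = ⊥ := Subgroup.eq_bot_of_card_eq _ hun
    rw [h5, Subgroup.bot_subgroupOf]
    exact Subgroup.card_bot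
  rw [h1, h2, hun, h3, one_mul, one_mul, ← inertiaDeg_tower v Q]

/-- the decomposition group is contained in `H` iff the prime below has degree one -/
theorem le_iff_deg_one (p : Ideal A) [p.IsPrime] (Q : Ideal C) [Q.IsPrime] [Q.LiesOver p]
    [PerfectField p.ResidueField] (v : Ideal B) [v.IsPrime] [Q.LiesOver v] [PerfectField v.ResidueField]
    (hun : Nat.card (Ideal.inertia G Q) = 1) :
    stabilizer G Q ≤ H ↔ v.inertiaDeg A = 1 := by
  have h := deg_mul H p Q v hun
  have hpos : 0 < Nat.card (stabilizer G Q) := Nat.card_pos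
  rw [card_stab_inf] at h
  constructor
  · intro hle
    rw [inf_eq_left.2 hle] at h
    exact Nat.eq_of_mul_eq_mul_right hpos (by rw [h, one_mul])
  · intro hv
    rw [hv, one_mul] at h
    have : (stabilizer G Q ⊓ H : Subgroup G) = stabilizer G Q :=
      Subgroup.eq_of_le_of_card_ge inf_le_left h.ge
    exact inf_eq_left.1 this

/-- orbit and stabilizer over a prime of `B` -/
theorem card_over (v : Ideal B) (Q : Ideal C) [Q.IsPrime] [Q.LiesOver v] :
    (v.primesOver C).ncard * Nat.card (stabilizer H Q) = Nat.card H := by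
  have h1 : MulAction.orbit H Q = v.primesOver C := Algebra.IsInvariant.orbit_eq_primesOver B C H v Q
  rw [← h1]
  have := Nat.card_congr (MulAction.orbitProdStabilizerEquivGroup H Q)
  rw [Nat.card_prod] at this
  exact this

/-- THE LOCAL IDENTITY -/
theorem local_id (p : Ideal A) [p.IsPrime] [PerfectField p.ResidueField]
    (hperf : ∀ v : Ideal B, ∀ _ : v.IsPrime, PerfectField v.ResidueField)
    (hC : (p.primesOver C).Finite) (hB : (p.primesOver B).Finite)
    (hne : ∀ v : Ideal B, v.IsPrime → ∃ Q : Ideal C, Q.IsPrime ∧ Q.LiesOver v)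
    (hun : ∀ Q ∈ p.primesOver C, Nat.card (Ideal.inertia G Q) = 1) [DecidablePred fun Q : Ideal C => stabilizer G Q ≤ H] :
    ∑ Q ∈ hC.toFinset.filter (fun Q => stabilizer G Q ≤ H), Nat.card (stabilizer G Q) =
      Nat.card H * (hB.toFinset.filter (fun v => v.inertiaDeg A = 1)).card := by
  classical
  have hmaps : ∀ Q ∈ hC.toFinset.filter (fun Q => stabilizer G Q ≤ H),
      Q.under B ∈ hB.toFinset.filter (fun v => v.inertiaDeg A = 1) := by
    intro Q hQ
    obtain ⟨hQ1, hQ2⟩ := mem_filter.1 hQ
    rw [Set.Finite.mem_toFinset] at hQ1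
    have := hQ1.1
    have := hQ1.2
    have hv : (Q.under B).IsPrime := inferInstance
    have : (Q.under B).LiesOver p := Ideal.LiesOver.tower_bot Q (Q.under B) p
    have := hperf (Q.under B) hv
    refine mem_filter.2 ⟨?_, ?_⟩
    · rw [Set.Finite.mem_toFinset]
      exact ⟨hv, inferInstance⟩
    · exact (le_iff_deg_one H p Q (Q.under B) (hun Q hQ1)).1 hQ2
  rw [← sum_fiberwise_of_maps_to hmaps, mul_comm, ← smul_eq_mul, ← sum_const]
  refine sum_congr rfl fun v hv => ?_
  obtain ⟨hv1, hv2⟩ := mem_filter.1 hv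
  rw [Set.Finite.mem_toFinset] at hv1
  have := hv1.1
  have := hv1.2
  have := hperf v hv1.1
  obtain ⟨Q₀, hQ₀, hQ₀v⟩ := hne v hv1.1
  have hkey : ∀ Q : Ideal C, Q.IsPrime → Q.LiesOver v →
      Q ∈ p.primesOver C ∧ stabilizer G Q ≤ H ∧ Nat.card (stabilizer G Q) = Nat.card (stabilizer H Q) := by
    intro Q hQ hQv
    have : Q.LiesOver p := Ideal.LiesOver.trans Q v p
    have hQp : Q ∈ p.primesOver C := ⟨hQ, this⟩
    have h1 := deg_mul H p Q v (hun Q hQp)
    rw [hv2, one_mul] at h1
    exact ⟨hQp, (le_iff_deg_one H p Q v (hun Q hQp)).2 hv2, h1.symm⟩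
  have hcst : ∀ Q : Ideal C, Q.IsPrime → Q.LiesOver v →
      Nat.card (stabilizer G Q) = Nat.card (stabilizer H Q₀) := by
    intro Q hQ hQv
    rw [(hkey Q hQ hQv).2.2]
    have h1 := card_over H v Q
    have h2 := card_over H v Q₀
    have hpos : 0 < (v.primesOver C).ncard := by
      rcases Nat.eq_zero_or_pos (v.primesOver C).ncard with h | h
      · rw [h, zero_mul] at h1
        exact absurd h1.symm (Nat.card_pos (α := H)).ne'
      · exact h
    exact Nat.eq_of_mul_eq_mul_left hpos (h1.trans h2.symm)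
  have hset : (hC.toFinset.filter (fun Q => stabilizer G Q ≤ H)).filter (fun Q => Q.under B = v) =
      (hC.subset (fun Q (hQ : Q ∈ v.primesOver C) => (hkey Q hQ.1 hQ.2).1) : (v.primesOver C).Finite).toFinset := by
    ext Q
    simp only [mem_filter, Set.Finite.mem_toFinset]
    constructor
    · rintro ⟨⟨hQ, _⟩, hQv⟩
      exact ⟨hQ.1, ⟨hQv.symm⟩⟩
    · rintro ⟨hQ, hQv⟩
      exact ⟨⟨(hkey Q hQ hQv).1, (hkey Q hQ hQv).2.1⟩, hQv.over.symm⟩
  rw [hset]
  rw [sum_congr rfl (g := fun _ => Nat.card (stabilizer H Q₀)) (fun Q hQ => by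
    rw [Set.Finite.mem_toFinset] at hQ
    exact hcst Q hQ.1 hQ.2)]
  rw [sum_const, smul_eq_mul, ← Set.ncard_eq_toFinset_card _ _]
  exact card_over H v Q₀

end loc

end Pool.Agent.H89.FrobD
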