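import Pool.Agent.H89.FrobD.Union
import Pool.Agent.H89.FrobD.PermCnt

/-!
# The splitting type of a prime is the cycle type of its Frobenius, relative version

`L / ℚ` Galois, `F → K` number fields, `K → L`; `p` unramified in `L`, `Q | p` with decomposition group `⟨g⟩`,
`τ : F → L` an embedding with orbit of length `k` under `g`, `u = τ⁻¹ Q`.  Then `#(𝓞 F / u) = p ^ k` and the
residue degrees over `u` of the primes of `K` above `u` are the cycle lengths of `g ^ k` on the embeddings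
`K → L` over `τ`.
-/

set_option autoImplicit false
set_option linter.unusedSectionVars false

open scoped Pointwise NumberField
open MulAction Ideal Finset Filter NumberField IsDedekindDomain

namespace Pool.Agent.H89.FrobD

section gen

/-- counting through a map with fibres of constant size -/
theorem card_const_fiber {R X : Type*} [Finite R] [Finite X] (Φ : R → X) (c : ℕ)
    (hc : ∀ x : X, Nat.card {r : R // Φ r = x} = c) (P : X → Prop) :
    Nat.card {r : R // P (Φ r)} = c * Nat.card {x : X // P x} := by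
  classical
  have : Fintype R := Fintype.ofFinite R
  have : Fintype X := Fintype.ofFinite X
  rw [Nat.card_eq_fintype_card, Fintype.card_subtype, Nat.card_eq_fintype_card, Fintype.card_subtype,
    Finset.card_eq_sum_card_fiberwise (f := Φ) (t := univ.filter P)
      (fun r hr => mem_coe.2 (mem_filter.2 ⟨mem_univ _, (mem_filter.1 (mem_coe.1 hr)).2⟩)), mul_comm,
    ← smul_eq_mul, ← sum_const]
  refine sum_congr rfl fun x hx => ?_
  rw [← hc x, Nat.card_eq_fintype_card, Fintype.card_subtype]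
  congr 1
  ext r
  simp only [mem_filter, mem_univ, true_and]
  constructor
  · exact fun h => h.2
  · intro h
    refine ⟨?_, h⟩
    rw [h]
    exact (mem_filter.1 hx).2

end gen

variable {L : Type} [Field L] [NumberField L] [IsGalois ℚ L]

/-- the group is transitive on the embeddings -/
theorem exists_gal {K : Type*} [Field K] [NumberField K] (σ σ' : K →ₐ[ℚ] L) :
    ∃ ρ : Gal(L/ℚ), act ρ σ = σ' := by
  let e1 : K ≃ₐ[ℚ] σ.fieldRange := AlgEquiv.ofInjectiveField σ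
  let e2 : K ≃ₐ[ℚ] σ'.fieldRange := AlgEquiv.ofInjectiveField σ'
  let χ : σ.fieldRange ≃ₐ[ℚ] σ'.fieldRange := e1.symm.trans e2
  refine ⟨χ.liftNormal L, ?_⟩
  ext x
  show (χ.liftNormal L) (σ x) = σ' x
  have h := χ.liftNormal_commutes L (e1 x)
  have h1 : algebraMap σ.fieldRange L (e1 x) = σ x := rfl
  have h2 : algebraMap σ'.fieldRange L (χ (e1 x)) = σ' x := by
    show algebraMap σ'.fieldRange L (e2 (e1.symm (e1 x))) = σ' x
    rw [AlgEquiv.symm_apply_apply]
    rfl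
  rw [h1, h2] at h
  exact h

theorem act_mul {K : Type*} [Field K] [NumberField K] (g h : Gal(L/ℚ)) (σ : K →ₐ[ℚ] L) :
    act (g * h) σ = act g (act h σ) := rfl

theorem act_one {K : Type*} [Field K] [NumberField K] (σ : K →ₐ[ℚ] L) : act (1 : Gal(L/ℚ)) σ = σ := rfl

/-- periods of conjugates -/
theorem period_conj {K : Type*} [Field K] [NumberField K] (g ρ : Gal(L/ℚ)) (σ : K →ₐ[ℚ] L) :
    Function.minimalPeriod (act (ρ * g * ρ⁻¹)) σ = Function.minimalPeriod (act g) (act ρ⁻¹ σ) := by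
  rw [Function.minimalPeriod_eq_minimalPeriod_iff]
  intro n
  rw [Function.IsPeriodicPt, Function.IsPeriodicPt, Function.IsFixedPt, Function.IsFixedPt, act_iter, act_iter]
  have h1 : (ρ * g * ρ⁻¹) ^ n = ρ * g ^ n * ρ⁻¹ := conj_pow
  rw [h1, act_mul, act_mul]
  constructor
  · intro h
    calc act (g ^ n) (act ρ⁻¹ σ) = act ρ⁻¹ (act ρ (act (g ^ n) (act ρ⁻¹ σ))) := by
          rw [← act_mul ρ⁻¹ ρ, inv_mul_cancel, act_one]
      _ = act ρ⁻¹ σ := by rw [h]
  · intro h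
    rw [h, ← act_mul, mul_inv_cancel, act_one]

/-- periods of restrictions -/
theorem period_mul {F K : Type*} [Field F] [NumberField F] [Field K] [NumberField K] [Algebra F K]
    (g : Gal(L/ℚ)) (τ : F →ₐ[ℚ] L) (σ : K →ₐ[ℚ] L) (hσ : ∀ x : F, σ (algebraMap F K x) = τ x) :
    Function.minimalPeriod (act g) σ =
      Function.minimalPeriod (act g) τ *
        Function.minimalPeriod (act (g ^ Function.minimalPeriod (act g) τ)) σ := by
  set k := Function.minimalPeriod (act g) τ with hk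
  have hfin : IsOfFinOrder g := isOfFinOrder_of_finite g
  have hkpos : 0 < k := by
    refine Function.IsPeriodicPt.minimalPeriod_pos (orderOf_pos g) ?_
    rw [Function.IsPeriodicPt, Function.IsFixedPt, act_iter, pow_orderOf_eq_one, act_one]
  have hdvd : k ∣ Function.minimalPeriod (act g) σ := by
    rw [hk, ← Function.isPeriodicPt_iff_minimalPeriod_dvd]
    have h := Function.isPeriodicPt_minimalPeriod (act g) σ
    rw [Function.IsPeriodicPt, Function.IsFixedPt, act_iter] at h ⊢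
    rw [act_eq_iff] at h ⊢
    intro x
    rw [← hσ]
    exact h _
  have hit : (act (K := K) g)^[k] = act (g ^ k) := by
    funext σ'
    exact act_iter g σ' k
  have h1 := Function.minimalPeriod_iterate_eq_div_gcd (f := act (K := K) g) (x := σ) (n := k) hkpos.ne'
  rw [hit, Nat.gcd_eq_right hdvd] at h1
  rw [h1, Nat.mul_div_cancel' hdvd]

/-- the embeddings of `K` over `τ` -/
abbrev Emb (K : Type*) {F : Type*} [Field F] [NumberField F] [Field K] [NumberField K] [Algebra F K]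
    (τ : F →ₐ[ℚ] L) : Type _ := {σ : K →ₐ[ℚ] L // ∀ x : F, σ (algebraMap F K x) = τ x}

/-- unramified -/
theorem ram_one {p : ℕ} (hp : p.Prime) (hd : ¬ (p : ℤ) ∣ NumberField.discr L) (Q : Ideal (𝓞 L))
    (hQ : Q ∈ (pZ p).primesOver (𝓞 L)) : Q.ramificationIdx ℤ = 1 := by
  have := hQ.1
  have := hQ.2
  have := pZ_prime hp
  have := pZ_max hp
  have hQm : Q.IsMaximal := Ideal.IsMaximal.of_liesOver_isMaximal Q (pZ p)
  have h1 : Algebra.IsUnramifiedAt ℤ Q :=
    (NumberField.not_dvd_discr_iff_forall_liesOver L (𝓞 L) (Nat.prime_iff_prime_int.1 hp)).1 hd Q hQm hQ.2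
  exact Ideal.ramificationIdx_eq_one_of_isUnramifiedAt

section rel

variable {F : Type*} {K : Type*} [Field F] [NumberField F] [Field K] [NumberField K] [Algebra F K]

/-- THE COUNT of the primes of degree `d` above `u` -/
theorem count_rel [Algebra K L] [Algebra F L] [IsScalarTower F K L]
    {p : ℕ} (hp : p.Prime) (hd : ¬ (p : ℤ) ∣ NumberField.discr L) (g : Gal(L/ℚ)) (Q : Ideal (𝓞 L))
    (hQ : Q ∈ (pZ p).primesOver (𝓞 L)) (hQE : stabilizer Gal(L/ℚ) Q = Subgroup.zpowers g)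
    (τ : F →ₐ[ℚ] L) (hτ : ∀ x : F, algebraMap F L x = τ x)
    (hB : ((Q.under (𝓞 F)).primesOver (𝓞 K)).Finite) (d : ℕ) :
    d * (hB.toFinset.filter (fun v => v.inertiaDeg (𝓞 F) = d)).card =
      Nat.card {σ : Emb K τ // Function.minimalPeriod (act (g ^ Function.minimalPeriod (act g) τ)) σ.1 = d} := by
  have hQp := hQ.1
  have hQl := hQ.2
  have hpZ := pZ_prime hp
  have hpM := pZ_max hp
  have htK : IsScalarTower ℚ K L := inferInstance
  have htF : IsScalarTower ℚ F L := inferInstance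
  let σ₀ : K →ₐ[ℚ] L := IsScalarTower.toAlgHom ℚ K L
  have hσ₀ : ∀ x : K, algebraMap K L x = σ₀ x := fun x => rfl
  have hσ₀F : ∀ x : F, σ₀ (algebraMap F K x) = τ x := by
    intro x
    rw [← hτ, ← hσ₀, ← IsScalarTower.algebraMap_apply]
  set k := Function.minimalPeriod (act g) τ with hk
  have hle : H89AB.HK K L ≤ H89AB.HK F L := by
    intro ρ hρ
    rw [H89AB.mem_HK] at hρ ⊢
    intro x
    rw [IsScalarTower.algebraMap_apply F K L]
    exact hρ _
  set H : Subgroup (H89AB.HK F L) := (H89AB.HK K L).subgroupOf (H89AB.HK F L) with hH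
  have hGF : IsGaloisGroup (H89AB.HK F L) (𝓞 F) (𝓞 L) := H89AB.gal_HK F
  have hGK0 : IsGaloisGroup (H89AB.HK K L) (𝓞 K) (𝓞 L) := H89AB.gal_HK K
  have hGK : IsGaloisGroup H (𝓞 K) (𝓞 L) :=
    IsGaloisGroup.of_mulEquiv (Subgroup.subgroupOfEquivOfLe hle) (fun _ _ => rfl)
  have hcardH : Nat.card H = Nat.card (H89AB.HK K L) :=
    Nat.card_congr (Subgroup.subgroupOfEquivOfLe hle).toEquiv
  have hu : (Q.under (𝓞 F)).IsPrime := inferInstance
  have hub : Q.under (𝓞 F) ≠ ⊥ := H89AB.under_ne_bot hp hQ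
  have hum : (Q.under (𝓞 F)).IsMaximal := hu.isMaximal hub
  have hup : (Q.under (𝓞 F)).LiesOver (pZ p) := Ideal.LiesOver.tower_bot Q (Q.under (𝓞 F)) (pZ p)
  have hC : ((Q.under (𝓞 F)).primesOver (𝓞 L)).Finite :=
    IsDedekindDomain.primesOver_finite (Q.under (𝓞 F)) (𝓞 L)
  have hover : ∀ Q' ∈ (Q.under (𝓞 F)).primesOver (𝓞 L), Q' ∈ (pZ p).primesOver (𝓞 L) := by
    intro Q' hQ'
    have := hQ'.2
    exact ⟨hQ'.1, Ideal.LiesOver.trans Q' (Q.under (𝓞 F)) (pZ p)⟩
  have hun : ∀ Q' ∈ (Q.under (𝓞 F)).primesOver (𝓞 L), Nat.card (Ideal.inertia (H89AB.HK F L) Q') = 1 := by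
    intro Q' hQ'
    have h4 : (Q'.inertia Gal(L/ℚ)).subgroupOf (H89AB.HK F L) = Q'.inertia (H89AB.HK F L) :=
      AddSubgroup.subgroupOf_inertia _ _
    rw [← h4, Subgroup.eq_bot_of_card_eq _ (unram L hp hd Q' (hover Q' hQ')), Subgroup.bot_subgroupOf]
    exact Subgroup.card_bot
  have hdegu : (Q.under (𝓞 F)).inertiaDeg ℤ = k := H89AB.deg_under hp hd g hQ hQE τ hτ
  have hkpos : 0 < k := by
    refine Function.IsPeriodicPt.minimalPeriod_pos (orderOf_pos g) ?_
    rw [Function.IsPeriodicPt, Function.IsFixedPt, act_iter, pow_orderOf_eq_one, act_one]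
  have h1 := count_deg (A := 𝓞 F) (B := 𝓞 K) (C := 𝓞 L) (G := H89AB.HK F L) H (Q.under (𝓞 F))
    (fun v hv => inferInstance) hC hB (fun v hv => by
      obtain ⟨Q', hQ', hQ'v⟩ := (inferInstance : Nonempty (v.primesOver (𝓞 L)))
      exact ⟨Q', hQ', hQ'v⟩) hun Q ⟨hQp, inferInstance⟩ d
  -- the condition on `ρ`
  have h2 : ∀ ρ : H89AB.HK F L, d * Nat.card (stabilizer H (ρ • Q)) = Nat.card (stabilizer (H89AB.HK F L) Q) ↔
      Function.minimalPeriod (act (g ^ k)) (act ((ρ : Gal(L/ℚ))⁻¹) σ₀) = d := by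
    intro ρ
    have hcoe : ρ • Q = (ρ : Gal(L/ℚ)) • Q := rfl
    have hmem : ρ • Q ∈ (Q.under (𝓞 F)).primesOver (𝓞 L) := by
      have horb : MulAction.orbit (H89AB.HK F L) Q = (Q.under (𝓞 F)).primesOver (𝓞 L) :=
        Algebra.IsInvariant.orbit_eq_primesOver (𝓞 F) (𝓞 L) (H89AB.HK F L) (Q.under (𝓞 F)) Q
      rw [← horb]
      exact ⟨ρ, rfl⟩
    have hρp := hmem.1
    have hρl := hmem.2
    have hρm := hover _ hmem
    have hv : ((ρ • Q).under (𝓞 K)).IsPrime := inferInstance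
    have hvl : ((ρ • Q).under (𝓞 K)).LiesOver (Q.under (𝓞 F)) :=
      Ideal.LiesOver.tower_bot (ρ • Q) ((ρ • Q).under (𝓞 K)) (Q.under (𝓞 F))
    have h3 := deg_mul (A := 𝓞 F) (B := 𝓞 K) (C := 𝓞 L) (G := H89AB.HK F L) H (Q.under (𝓞 F)) (ρ • Q)
      ((ρ • Q).under (𝓞 K)) (hun _ hmem)
    have hcs : Nat.card (stabilizer (H89AB.HK F L) (ρ • Q)) = Nat.card (stabilizer (H89AB.HK F L) Q) :=
      card_stab_smul (C := 𝓞 L) (G := H89AB.HK F L) ρ Q
    replace h3 := h3.trans hcs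
    have hpos : 0 < Nat.card (stabilizer H (ρ • Q)) := Nat.card_pos
    have h4 : ((ρ • Q).under (𝓞 K)).inertiaDeg (𝓞 F) =
        Function.minimalPeriod (act (g ^ k)) (act ((ρ : Gal(L/ℚ))⁻¹) σ₀) := by
      have h5 : ((ρ • Q).under (𝓞 K)).inertiaDeg ℤ =
          (Q.under (𝓞 F)).inertiaDeg ℤ * ((ρ • Q).under (𝓞 K)).inertiaDeg (𝓞 F) :=
        Ideal.inertiaDeg_tower (R := ℤ) (Q.under (𝓞 F)) ((ρ • Q).under (𝓞 K))
      have h6 : stabilizer Gal(L/ℚ) (ρ • Q) = Subgroup.zpowers ((ρ : Gal(L/ℚ)) * g * (ρ : Gal(L/ℚ))⁻¹) := by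
        rw [hcoe, stabilizer_smul_eq_stabilizer_map_conj, hQE, MonoidHom.map_zpowers]
        rfl
      have h7 : ((ρ • Q).under (𝓞 K)).inertiaDeg ℤ = Function.minimalPeriod
          (act ((ρ : Gal(L/ℚ)) * g * (ρ : Gal(L/ℚ))⁻¹)) σ₀ :=
        H89AB.deg_under hp hd _ hρm h6 σ₀ hσ₀
      have hρF : ∀ x : F, (act ((ρ : Gal(L/ℚ))⁻¹) σ₀) (algebraMap F K x) = τ x := by
        intro x
        show (ρ : Gal(L/ℚ))⁻¹ (σ₀ (algebraMap F K x)) = τ x
        rw [hσ₀F, ← hτ]
        have h8 := (H89AB.HK F L).inv_mem ρ.2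
        rw [H89AB.mem_HK] at h8
        exact h8 x
      rw [h7, period_conj, period_mul g τ _ hρF, hdegu, ← hk] at h5
      exact (Nat.eq_of_mul_eq_mul_left hkpos h5).symm
    rw [← h4]
    constructor
    · intro h5
      exact Nat.eq_of_mul_eq_mul_right hpos (h3.trans h5.symm)
    · intro h5
      rw [← h5]
      exact h3
  replace h1 := h1.trans (Nat.card_congr (Equiv.subtypeEquivRight h2))
  -- the fibres
  let Φ : H89AB.HK F L → Emb K τ := fun ρ => ⟨act ((ρ : Gal(L/ℚ))⁻¹) σ₀, by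
    intro x
    show (ρ : Gal(L/ℚ))⁻¹ (σ₀ (algebraMap F K x)) = τ x
    rw [hσ₀F, ← hτ]
    have h8 := (H89AB.HK F L).inv_mem ρ.2
    rw [H89AB.mem_HK] at h8
    exact h8 x⟩
  have hfib : ∀ σ : Emb K τ, Nat.card {ρ : H89AB.HK F L // Φ ρ = σ} = Nat.card H := by
    intro σ
    obtain ⟨ρ₁, hρ₁⟩ := exists_gal σ.1 σ₀
    have hρ₁F : ρ₁ ∈ H89AB.HK F L := by
      rw [H89AB.mem_HK]
      intro x
      have h5 : ρ₁ (σ.1 (algebraMap F K x)) = σ₀ (algebraMap F K x) := by
        rw [← hρ₁]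
        rfl
      rw [σ.2, hσ₀F] at h5
      rw [hτ]
      exact h5
    have hρ₁' : act ρ₁⁻¹ σ₀ = σ.1 := by
      rw [← hρ₁, ← act_mul, inv_mul_cancel, act_one]
    rw [hcardH]
    have hHK : ∀ ρ : Gal(L/ℚ), ρ ∈ H89AB.HK K L ↔ act ρ σ₀ = σ₀ := by
      intro ρ
      rw [H89AB.mem_HK, act_eq_iff]
      rfl
    refine Nat.card_congr
      { toFun := fun ρ => ⟨(ρ.1 : Gal(L/ℚ)) * ρ₁⁻¹, by
          rw [hHK, act_mul, hρ₁']
          have h5 : act ((ρ.1 : Gal(L/ℚ))⁻¹) σ₀ = σ.1 := congrArg Subtype.val ρ.2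
          rw [← h5, ← act_mul, mul_inv_cancel, act_one]⟩
        invFun := fun h => ⟨⟨(h.1 : Gal(L/ℚ)) * ρ₁, (H89AB.HK F L).mul_mem (hle h.2) hρ₁F⟩, by
          apply Subtype.ext
          show act (((h.1 : Gal(L/ℚ)) * ρ₁)⁻¹) σ₀ = σ.1
          rw [mul_inv_rev, act_mul]
          have h5 : act ((h.1 : Gal(L/ℚ))⁻¹) σ₀ = σ₀ := (hHK _).1 ((H89AB.HK K L).inv_mem h.2)
          rw [h5, hρ₁']⟩
        left_inv := fun ρ => by
          apply Subtype.ext
          apply Subtype.ext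
          show (ρ.1 : Gal(L/ℚ)) * ρ₁⁻¹ * ρ₁ = ρ.1
          rw [inv_mul_cancel_right]
        right_inv := fun h => by
          apply Subtype.ext
          show (h.1 : Gal(L/ℚ)) * ρ₁ * ρ₁⁻¹ = h.1
          rw [mul_inv_cancel_right] }
  have hfinEmb : Finite (Emb K τ) := inferInstance
  have h9 := card_const_fiber Φ (Nat.card H) hfib
    (fun σ => Function.minimalPeriod (act (g ^ k)) σ.1 = d)
  have h10 : Nat.card {ρ : H89AB.HK F L // Function.minimalPeriod (act (g ^ k)) (act ((ρ : Gal(L/ℚ))⁻¹) σ₀) = d} =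
      Nat.card H * Nat.card {σ : Emb K τ // Function.minimalPeriod (act (g ^ k)) σ.1 = d} := h9
  rw [h10, mul_assoc] at h1
  exact Nat.eq_of_mul_eq_mul_left Nat.card_pos h1

end rel

end Pool.Agent.H89.FrobD
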