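import Pool.Agent.H89.FrobD.Cor

/-!
# Frobenius density: split primes congruent to 2 modulo 3

`split_upper`: for `L / ℚ` Galois without primitive cube roots of unity, `K → L`, `B` of density zero: the primes
`p ≡ 2` modulo `3` outside `B` such that all primes of `K` above `p` have degree one have upper density at least
`1 / (2 [L : ℚ])`.
-/

set_option autoImplicit false
set_option linter.unusedSectionVars false

open scoped Pointwise NumberField
open MulAction Ideal Finset Filter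

namespace Pool.Agent.H89.FrobD

open Pool.Agent.H71.FD (UD Null cn th)

section abs

variable {L' : Type} [Field L'] [NumberField L'] [IsGalois ℚ L']

/-- a Frobenius which moves the cube roots of unity -/
theorem mod_three' {p : ℕ} (hp : p.Prime) (hp3 : 3 < p) (hd : ¬ (p : ℤ) ∣ NumberField.discr L') (g : Gal(L'/ℚ))
    (hE : (setE L' (Subgroup.zpowers g) p).Nonempty) (w : L') (hw : w ^ 2 + w + 1 = 0) (hgw : g w ≠ w) :
    p % 3 = 2 := by
  have : Fact p.Prime := ⟨hp⟩
  obtain ⟨φ, τ, hτ, hφ⟩ := exists_frob L' hd (AlgebraicClosure (ZMod p)) (Subgroup.zpowers g) hE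
  have hint : IsIntegral ℤ w := by
    refine ⟨Polynomial.X ^ 2 + Polynomial.X + 1, ?_, ?_⟩
    · have : (Polynomial.X ^ 2 + Polynomial.X + 1 : Polynomial ℤ) =
          Polynomial.X ^ 2 + (Polynomial.X + 1) := by ring
      rw [this]
      refine Polynomial.monic_X_pow_add ?_
      have h1 : (Polynomial.X + 1 : Polynomial ℤ).degree = 1 := by
        have := Polynomial.degree_X_add_C (1 : ℤ)
        simpa using this
      rw [h1]
      norm_num
    · simpa using hw
  set W : 𝓞 L' := ⟨w, hint⟩ with hW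
  have hWe : W ^ 2 + W + 1 = 0 := by
    apply NumberField.RingOfIntegers.ext
    push_cast
    exact hw
  have hmove : τ • W ≠ W := by
    intro h
    apply hgw
    have h1 : g ∈ Subgroup.zpowers τ := by
      rw [hτ]
      exact Subgroup.mem_zpowers g
    have h2 : Subgroup.zpowers τ ≤ stabilizer Gal(L'/ℚ) W := by
      rw [Subgroup.zpowers_le, MulAction.mem_stabilizer_iff]
      exact h
    have h3 := h2 h1
    rw [MulAction.mem_stabilizer_iff] at h3
    have h4 := congrArg (fun x : 𝓞 L' => (x : L')) h3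
    exact h4
  have hτe : (τ • W) ^ 2 + τ • W + 1 = 0 := by
    have := congrArg (fun x : 𝓞 L' => τ • x) hWe
    simpa [smul_add, smul_pow'] using this
  have hτW : τ • W = W ^ 2 := by
    have h1 : (τ • W - W) * (τ • W + W + 1) = 0 := by linear_combination hτe - hWe
    rcases mul_eq_zero.1 h1 with h | h
    · exact absurd (sub_eq_zero.1 h) hmove
    · linear_combination h - hWe
  have h3 := hφ W
  rw [hτW, map_pow] at h3
  have h4 : φ W ^ 2 + φ W + 1 = 0 := by
    have := congrArg φ hWe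
    simpa using this
  have hne3 : (3 : AlgebraicClosure (ZMod p)) ≠ 0 := by
    intro h
    have h5 : ((3 : ℕ) : AlgebraicClosure (ZMod p)) = 0 := by exact_mod_cast h
    rw [CharP.cast_eq_zero_iff (AlgebraicClosure (ZMod p)) p] at h5
    have := Nat.le_of_dvd (by norm_num) h5
    omega
  have hu3 : φ W ^ 3 = 1 := by
    have : φ W ^ 3 - 1 = (φ W - 1) * (φ W ^ 2 + φ W + 1) := by ring
    rw [h4, mul_zero] at this
    exact sub_eq_zero.1 this
  have hu1 : φ W ≠ 1 := by
    intro h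
    rw [h] at h4
    exact hne3 (by linear_combination h4)
  have hu0 : φ W ≠ 0 := by
    intro h
    rw [h] at h4
    simp at h4
  have h5 := Nat.div_add_mod p 3
  have h6 : φ W ^ p = φ W ^ (p % 3) := by
    have h7 : φ W ^ p = φ W ^ (3 * (p / 3) + p % 3) := congrArg (fun n => φ W ^ n) h5.symm
    rw [h7, pow_add, pow_mul, hu3, one_pow, one_mul]
  rw [h6] at h3
  have h7 : p % 3 < 3 := Nat.mod_lt _ (by norm_num)
  have h8 : p % 3 ≠ 0 := by
    intro h
    rw [h, pow_zero] at h3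
    have h9 : φ W = 1 := by
      have h10 : φ W ^ 3 = φ W ^ 2 * φ W := by ring
      rw [hu3, h3, one_mul] at h10
      exact h10.symm
    exact hu1 h9
  have h9 : p % 3 ≠ 1 := by
    intro h
    rw [h, pow_one] at h3
    have : φ W * (φ W - 1) = 0 := by linear_combination h3
    rcases mul_eq_zero.1 this with h | h
    · exact hu0 h
    · exact hu1 (sub_eq_zero.1 h)
  omega

/-- a Frobenius which fixes the normal field `L`: the primes of the subfields of `L` above `p` have degree one -/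
theorem deg_one_all {L : Type} [Field L] [NumberField L] [IsGalois ℚ L] [Algebra L L'] [IsScalarTower ℚ L L']
    {K : Type*} [Field K] [NumberField K] (σ₀ : K →ₐ[ℚ] L)
    {p : ℕ} (hp : p.Prime) (hd : ¬ (p : ℤ) ∣ NumberField.discr L') (g : Gal(L'/ℚ))
    (hg : ∀ x : L, g (algebraMap L L' x) = algebraMap L L' x)
    (hE : (setE L' (Subgroup.zpowers g) p).Nonempty)
    (v : IsDedekindDomain.HeightOneSpectrum (𝓞 K)) (hv : (p : 𝓞 K) ∈ v.asIdeal) :
    v.asIdeal.inertiaDeg ℤ = 1 := by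
  obtain ⟨Q, hQ, hQE⟩ := hE
  have hQp := hQ.1
  have hQl := hQ.2
  have hpZ := pZ_prime hp
  have hpM := pZ_max hp
  let σ : K →ₐ[ℚ] L' := (IsScalarTower.toAlgHom ℚ L L').comp σ₀
  let _ : Algebra K L' := σ.toRingHom.toAlgebra
  have hmap : ∀ x : K, algebraMap K L' x = algebraMap L L' (σ₀ x) := fun x => rfl
  have : IsScalarTower ℚ K L' := IsScalarTower.of_algebraMap_eq' (by
    ext
    simp)
  have hvp : v.asIdeal.IsPrime := v.isPrime
  obtain ⟨Q', hQ', hQ'v⟩ := (inferInstance : Nonempty (v.asIdeal.primesOver (𝓞 L')))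
  have hvl : v.asIdeal.LiesOver (pZ p) := by
    constructor
    refine hpM.eq_of_le ?_ ?_
    · exact Ideal.IsPrime.ne_top inferInstance
    · rw [Ideal.span_singleton_le_iff_mem, Ideal.under_def, Ideal.mem_comap]
      simpa using hv
  have hQ'l : Q'.LiesOver (pZ p) := Ideal.LiesOver.trans Q' v.asIdeal (pZ p)
  have hQ'm : Q' ∈ (pZ p).primesOver (𝓞 L') := ⟨hQ', hQ'l⟩
  have horb : MulAction.orbit Gal(L'/ℚ) Q = (pZ p).primesOver (𝓞 L') :=
    Algebra.IsInvariant.orbit_eq_primesOver ℤ (𝓞 L') Gal(L'/ℚ) (pZ p) Q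
  rw [← horb] at hQ'm
  obtain ⟨τ, hτ⟩ := hQ'm
  have hτ' : τ • Q = Q' := hτ
  set H : Subgroup Gal(L'/ℚ) := fixingSubgroup Gal(L'/ℚ) (Set.range (algebraMap K L')) with hHdef
  have hIG : IsGaloisGroup H K L' := IsGaloisGroup.of_isScalarTower Gal(L'/ℚ) ℚ L' K
  have hIG2 : IsGaloisGroup H (𝓞 K) (𝓞 L') := IsGaloisGroup.of_isFractionRing H (𝓞 K) (𝓞 L') K L'
  refine (le_iff_deg_one (A := ℤ) (B := 𝓞 K) (C := 𝓞 L') H (pZ p) Q' v.asIdeal
    (unram L' hp hd Q' ⟨hQ', hQ'l⟩)).1 ?_
  rw [← hτ', stabilizer_smul_eq_stabilizer_map_conj, hQE]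
  intro ρ hρ
  obtain ⟨ρ', hρ', rfl⟩ := Subgroup.mem_map.1 hρ
  rw [hHdef, mem_fixingSubgroup_iff]
  rintro _ ⟨x, rfl⟩
  show τ (ρ' (τ⁻¹ (algebraMap K L' x))) = algebraMap K L' x
  rw [hmap]
  -- `ρ'` fixes `L`
  have hfix : ∀ y : L, ρ' (algebraMap L L' y) = algebraMap L L' y := by
    intro y
    have h1 : Subgroup.zpowers g ≤ stabilizer Gal(L'/ℚ) (algebraMap L L' y) := by
      rw [Subgroup.zpowers_le, MulAction.mem_stabilizer_iff]
      exact hg y
    have h2 := h1 hρ'
    rw [MulAction.mem_stabilizer_iff] at h2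
    exact h2
  have hnorm : τ⁻¹ (algebraMap L L' (σ₀ x)) =
      algebraMap L L' ((AlgEquiv.restrictNormal τ⁻¹ L) (σ₀ x)) :=
    (AlgEquiv.restrictNormal_commutes τ⁻¹ L (σ₀ x)).symm
  rw [hnorm, hfix, ← hnorm]
  show τ (τ⁻¹ (algebraMap L L' (σ₀ x))) = algebraMap L L' (σ₀ x)
  have h1 : (τ * τ⁻¹) (algebraMap L L' (σ₀ x)) = algebraMap L L' (σ₀ x) := by
    rw [mul_inv_cancel]
    rfl
  exact h1

end abs

section cyc

variable (L : Type) [Field L] [NumberField L] [IsGalois ℚ L]

/-- `L(ω)` -/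
abbrev Lw : Type := CyclotomicField 3 L

instance galLw : IsGalois ℚ (Lw L) := by
  obtain ⟨f, hf, hsp⟩ := IsGalois.is_separable_splitting_field ℚ L
  have h3 : (Polynomial.cyclotomic 3 ℚ) ≠ 0 := Polynomial.cyclotomic_ne_zero 3 ℚ
  have hL : Polynomial.IsSplittingField L (Lw L) ((Polynomial.cyclotomic 3 ℚ).map (algebraMap ℚ L)) := by
    rw [Polynomial.map_cyclotomic]
    exact IsCyclotomicExtension.splitting_field_cyclotomic 3 L (Lw L)
  have hmul : Polynomial.IsSplittingField ℚ (Lw L) (f * Polynomial.cyclotomic 3 ℚ) :=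
    Polynomial.IsSplittingField.mul (K := L) (L := Lw L) f (Polynomial.cyclotomic 3 ℚ) hf.ne_zero h3
  have hn : Normal ℚ (Lw L) := Normal.of_isSplittingField (f * Polynomial.cyclotomic 3 ℚ)
  exact ⟨⟩

theorem finrank_Lw (hω : ∀ w : L, w ^ 2 + w + 1 ≠ 0) :
    Module.finrank ℚ (Lw L) = 2 * Module.finrank ℚ L := by
  have hirr : Irreducible (Polynomial.cyclotomic 3 L) := by
    apply Polynomial.irreducible_of_degree_le_three_of_not_isRoot
    · rw [Polynomial.natDegree_cyclotomic, Nat.totient_prime Nat.prime_three]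
      norm_num
    · intro x hx
      rw [Polynomial.cyclotomic_three, Polynomial.IsRoot.def] at hx
      simp only [Polynomial.eval_add, Polynomial.eval_pow, Polynomial.eval_X, Polynomial.eval_one] at hx
      exact hω x hx
  have h1 : Module.finrank L (Lw L) = 2 := by
    have := IsCyclotomicExtension.finrank (n := 3) (K := L) (Lw L) hirr
    rw [this, Nat.totient_prime Nat.prime_three]
  rw [← Module.finrank_mul_finrank ℚ L (Lw L), h1, mul_comm]

theorem exists_g (hω : ∀ w : L, w ^ 2 + w + 1 ≠ 0) :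
    ∃ (g : Gal(Lw L/ℚ)) (w : Lw L), w ^ 2 + w + 1 = 0 ∧ g w ≠ w ∧
      ∀ x : L, g (algebraMap L (Lw L) x) = algebraMap L (Lw L) x := by
  have hz := IsCyclotomicExtension.zeta_spec 3 L (Lw L)
  set w := IsCyclotomicExtension.zeta 3 L (Lw L) with hw
  have hw2 : w ^ 2 + w + 1 = 0 := by
    have h1 := hz.isRoot_cyclotomic (by norm_num)
    rw [Polynomial.cyclotomic_three, Polynomial.IsRoot.def] at h1
    simpa using h1
  have hgal : IsGalois L (Lw L) := IsCyclotomicExtension.isGalois {3} L (Lw L)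
  have hnot : w ∉ (⊥ : IntermediateField L (Lw L)) := by
    rw [IntermediateField.mem_bot]
    rintro ⟨x, hx⟩
    apply hω x
    apply (algebraMap L (Lw L)).injective
    rw [map_add, map_add, map_pow, map_one, map_zero, hx]
    exact hw2
  rw [IsGalois.mem_bot_iff_fixed] at hnot
  push Not at hnot
  obtain ⟨g, hg⟩ := hnot
  refine ⟨g.restrictScalars ℚ, w, hw2, hg, fun x => ?_⟩
  exact g.commutes x

end cyc

/-- SPLIT PRIMES CONGRUENT TO 2 MODULO 3 -/
theorem split_upper {L : Type} [Field L] [NumberField L] [IsGalois ℚ L] (hω : ∀ w : L, w ^ 2 + w + 1 ≠ 0)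
    {K : Type*} [Field K] [NumberField K] (σ₀ : K →ₐ[ℚ] L) {B : ℕ → Prop} (hB : Null B) :
    UpperDensity {p : ℕ | ¬ B p ∧ p % 3 = 2 ∧
      ∀ v : IsDedekindDomain.HeightOneSpectrum (𝓞 K), (p : 𝓞 K) ∈ v.asIdeal → v.asIdeal.inertiaDeg ℤ = 1}
      (1 / (2 * (Module.finrank ℚ L : ℝ))) := by
  obtain ⟨g, w, hw, hgw, hgL⟩ := exists_g L hω
  intro ε hε x₀
  have hB' : Null (fun p => B p ∨ p ≤ 3) :=
    hB.or (Pool.Agent.H71.FD.Null_of_bounded 3 fun p _ hp => hp)
  obtain ⟨x, hx, h⟩ := GP_count (Lw L) (Subgroup.zpowers g) hB' ε hε (max x₀ 2)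
  refine ⟨x, (le_max_left _ _).trans hx, ?_⟩
  have hx2 : 2 ≤ x := (le_max_right _ _).trans hx
  have hx1 : (1 : ℝ) < x := by exact_mod_cast hx2
  have hl : 0 < Real.log x := Real.log_pos hx1
  have hcard : Nat.card Gal(Lw L/ℚ) = 2 * Module.finrank ℚ L := by
    rw [← finrank_Lw L hω]
    exact IsGalois.card_aut_eq_finrank ℚ (Lw L)
  rw [hcard] at h
  have h0 : (1 / (2 * (Module.finrank ℚ L : ℝ)) - ε) * (x / Real.log x) ≤
      ((gens (Lw L) (Subgroup.zpowers g) : ℝ) / ((2 * Module.finrank ℚ L : ℕ) : ℝ) - ε) * (x / Real.log x) := by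
    refine mul_le_mul_of_nonneg_right ?_ (by positivity)
    have h1 : (1 : ℝ) ≤ (gens (Lw L) (Subgroup.zpowers g) : ℝ) := by exact_mod_cast one_le_gens (Lw L) g
    have h2 : (0 : ℝ) < (Module.finrank ℚ L : ℝ) := by exact_mod_cast Module.finrank_pos
    have h3 := div_le_div_of_nonneg_right h1 (by positivity : (0 : ℝ) ≤ 2 * (Module.finrank ℚ L : ℝ))
    push_cast
    linarith
  refine h0.trans (h.trans ?_)
  rw [cn_eq_ncard]
  refine Nat.cast_le.2 (Set.ncard_le_ncard ?_ ?_)
  · rintro p ⟨hp, hpx, ⟨hd, hE⟩, hnot⟩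
    push Not at hnot
    exact ⟨hp, hpx, hnot.1, mod_three' hp hnot.2 hd g hE w hw hgw,
      fun v hv => deg_one_all σ₀ hp hd g hgL hE v hv⟩
  · exact (Set.finite_Iic x).subset fun p hp => hp.2.1

end Pool.Agent.H89.FrobD
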