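import Pool.Agent.H89.FrobD.Cyc

/-!
# Frobenius density for a union of divisions

`upper_of_GC`: `L / ℚ` Galois, `C` a set of elements of the group which contains with `g` all generators of `⟨g⟩`:
the primes `p`, unramified in `L`, such that some prime above `p` has the decomposition group `⟨g⟩` with
`g ∈ C`, outside a set of density zero, have upper density at least `#C / [L : ℚ]`.
-/

set_option autoImplicit false
set_option linter.unusedSectionVars false

open scoped Pointwise NumberField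
open MulAction Ideal Finset Filter NumberField IsDedekindDomain

namespace Pool.Agent.H89.FrobD

open Pool.Agent.H71.FD (UD Null cn th)
open Pool.Agent.H24.FD (dS)

variable (L : Type) [Field L] [NumberField L] [IsGalois ℚ L]

/-- the decomposition groups above `p`, counted with their orders -/
theorem sum_bE_le (S : Finset (Subgroup Gal(L/ℚ))) {p : ℕ} (hp : p.Prime) :
    ∑ E ∈ S, Nat.card E * bE L E p ≤ Nat.card Gal(L/ℚ) := by
  classical
  have hfin := fin_over L hp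
  have hpZ := pZ_prime hp
  have hpM := pZ_max hp
  obtain ⟨Q₀, hQ₀, hQ₀l⟩ := (inferInstance : Nonempty ((pZ p).primesOver (𝓞 L)))
  have horb : MulAction.orbit Gal(L/ℚ) Q₀ = (pZ p).primesOver (𝓞 L) :=
    Algebra.IsInvariant.orbit_eq_primesOver ℤ (𝓞 L) Gal(L/ℚ) (pZ p) Q₀
  set e := Nat.card (stabilizer Gal(L/ℚ) Q₀) with he
  have hstab : ∀ Q ∈ (pZ p).primesOver (𝓞 L), Nat.card (stabilizer Gal(L/ℚ) Q) = e := by
    intro Q hQ
    rw [← horb] at hQ
    obtain ⟨τ, hτ⟩ := hQ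
    have hτ' : τ • Q₀ = Q := hτ
    rw [← hτ', card_stab_smul]
  have h1 : hfin.toFinset.card * e = Nat.card Gal(L/ℚ) := by
    have h2 := Nat.card_congr (MulAction.orbitProdStabilizerEquivGroup Gal(L/ℚ) Q₀)
    rw [Nat.card_prod, horb] at h2
    rw [← h2, ← Set.ncard_eq_toFinset_card _ hfin]
    rfl
  have h3 : ∀ E ∈ S, Nat.card E * bE L E p =
      ∑ Q ∈ (hfin.toFinset.filter (fun Q => stabilizer Gal(L/ℚ) Q ∈ S)).filter
        (fun Q => stabilizer Gal(L/ℚ) Q = E), e := by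
    intro E hE
    have hfinE : (setE L E p).Finite := hfin.subset fun Q hQ => hQ.1
    have hset : (hfin.toFinset.filter (fun Q => stabilizer Gal(L/ℚ) Q ∈ S)).filter
        (fun Q => stabilizer Gal(L/ℚ) Q = E) = hfinE.toFinset := by
      ext Q
      simp only [Set.Finite.mem_toFinset, mem_filter, setE, Set.mem_ofPred_eq]
      constructor
      · rintro ⟨⟨a, _⟩, b⟩
        exact ⟨a, b⟩
      · rintro ⟨a, b⟩
        exact ⟨⟨a, by rw [b]; exact hE⟩, b⟩
    rw [hset, bE, Set.ncard_eq_toFinset_card _ hfinE, sum_const, smul_eq_mul, mul_comm]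
    rcases Finset.eq_empty_or_nonempty hfinE.toFinset with h | ⟨Q, hQ⟩
    · rw [h]
      simp
    · rw [Set.Finite.mem_toFinset] at hQ
      rw [← hstab Q hQ.1, hQ.2]
  have h4 := Finset.sum_fiberwise_of_maps_to
    (s := hfin.toFinset.filter (fun Q => stabilizer Gal(L/ℚ) Q ∈ S)) (t := S)
    (g := fun Q => stabilizer Gal(L/ℚ) Q) (fun Q hQ => (mem_filter.1 hQ).2) (fun _ => e)
  rw [sum_congr rfl h3, h4, sum_const, smul_eq_mul, ← h1]
  exact Nat.mul_le_mul_right _ (card_le_card (filter_subset _ _))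

/-- the primes with a Frobenius in `C` -/
def GC (C : Set Gal(L/ℚ)) (p : ℕ) : Prop :=
  ¬ (p : ℤ) ∣ NumberField.discr L ∧ ∃ g ∈ C, (setE L (Subgroup.zpowers g) p).Nonempty

theorem GC_sum (C : Set Gal(L/ℚ)) (hC : ∀ g ∈ C, ∀ h : Gal(L/ℚ), Subgroup.zpowers h = Subgroup.zpowers g → h ∈ C) :
    ∃ K₀ : ℝ, ∀ s : ℝ, 1 < s → s < 2 →
      (C.ncard : ℝ) / (Nat.card Gal(L/ℚ) : ℝ) * Real.log (1 / (s - 1)) - K₀ ≤ dS (GC L C) s := by
  classical
  have hCf : C.Finite := C.toFinite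
  set S : Finset (Subgroup Gal(L/ℚ)) := hCf.toFinset.image (fun g => Subgroup.zpowers g) with hS
  have hgens : ∑ E ∈ S, gens L E = C.ncard := by
    rw [Set.ncard_eq_toFinset_card _ hCf, Finset.card_eq_sum_card_fiberwise (f := fun g => Subgroup.zpowers g)
      (t := S) (fun g hg => mem_coe.2 (mem_image_of_mem _ (mem_coe.1 hg)))]
    refine sum_congr rfl fun E hE => ?_
    obtain ⟨g, hg, rfl⟩ := mem_image.1 hE
    rw [Set.Finite.mem_toFinset] at hg
    have : Fintype Gal(L/ℚ) := Fintype.ofFinite _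
    rw [gens, Nat.card_eq_fintype_card, Fintype.card_subtype]
    congr 1
    ext x
    simp only [mem_filter, mem_univ, true_and, Set.Finite.mem_toFinset]
    constructor
    · intro h
      exact ⟨hC g hg x h, h⟩
    · exact fun h => h.2
  choose c hc using fun E : Subgroup Gal(L/ℚ) => frob_density L E
  have hn : (0 : ℝ) < (Nat.card Gal(L/ℚ) : ℝ) := by exact_mod_cast (Nat.card_pos (α := Gal(L/ℚ)))
  refine ⟨(∑ E ∈ S, c E) / (Nat.card Gal(L/ℚ) : ℝ), fun s hs hs2 => ?_⟩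
  have h1 : (C.ncard : ℝ) * Real.log (1 / (s - 1)) - ∑ E ∈ S, c E ≤ ∑ E ∈ S, AA L E s := by
    rw [← hgens]
    push_cast
    rw [sum_mul, ← sum_sub_distrib]
    refine sum_le_sum fun E _ => ?_
    have h2 := (abs_le.1 (hc E s hs hs2)).1
    linarith
  have h2 : ∑ E ∈ S, AA L E s ≤ (Nat.card Gal(L/ℚ) : ℝ) * dS (GC L C) s := by
    unfold AA dS
    rw [← tsum_mul_left, ← Summable.tsum_finsetSum (fun E _ => summable_cf L E s hs)]
    refine (summable_sum fun E _ => summable_cf L E s hs).tsum_le_tsum (fun p => ?_)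
      ((Pool.Agent.H24.FD.dS_summable (GC L C) hs).mul_left _)
    rw [← sum_mul]
    have hw : (0 : ℝ) ≤ ((p : ℕ) : ℝ) ^ (-s) := Real.rpow_nonneg (Nat.cast_nonneg _) _
    unfold cf wt
    by_cases h : ((p : ℕ) : ℤ) ∣ NumberField.discr L
    · simp only [if_pos h, sum_const_zero, zero_mul]
      split_ifs
      · positivity
      · simp
    · simp only [if_neg h]
      by_cases h2 : ∃ g ∈ C, (setE L (Subgroup.zpowers g) p).Nonempty
      · rw [if_pos (show GC L C p from ⟨h, h2⟩)]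
        refine mul_le_mul_of_nonneg_right ?_ hw
        rw [← Nat.cast_sum]
        exact_mod_cast sum_bE_le L S p.2
      · have h3 : ∑ E ∈ S, ((Nat.card E * bE L E p : ℕ) : ℝ) = 0 := by
          refine sum_eq_zero fun E hE => ?_
          obtain ⟨g, hg, rfl⟩ := mem_image.1 hE
          rw [Set.Finite.mem_toFinset] at hg
          have h4 : ¬ (setE L (Subgroup.zpowers g) p).Nonempty := fun h => h2 ⟨g, hg, h⟩
          rw [bE, Set.not_nonempty_iff_eq_empty.1 h4, Set.ncard_empty, mul_zero, Nat.cast_zero]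
        rw [h3, zero_mul]
        split_ifs
        · positivity
        · simp
  have h5 : (C.ncard : ℝ) / (Nat.card Gal(L/ℚ) : ℝ) * Real.log (1 / (s - 1)) -
      (∑ E ∈ S, c E) / (Nat.card Gal(L/ℚ) : ℝ) =
      ((C.ncard : ℝ) * Real.log (1 / (s - 1)) - ∑ E ∈ S, c E) / (Nat.card Gal(L/ℚ) : ℝ) := by ring
  rw [h5, div_le_iff₀ hn]
  linarith

/-- counting the primes -/
theorem GC_count (C : Set Gal(L/ℚ)) (hC : ∀ g ∈ C, ∀ h : Gal(L/ℚ), Subgroup.zpowers h = Subgroup.zpowers g → h ∈ C)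
    {B : ℕ → Prop} (hB : Null B) (ε : ℝ) (hε : 0 < ε) (x₀ : ℕ) :
    ∃ x : ℕ, x₀ ≤ x ∧ ((C.ncard : ℝ) / (Nat.card Gal(L/ℚ) : ℝ) - ε) * (x / Real.log x) ≤
      (cn (fun p => GC L C p ∧ ¬ B p) x : ℝ) := by
  have h1 := Pool.Agent.H24.FD.not_UD_sdiff (GC_sum L C hC) hB
    (e := (C.ncard : ℝ) / (Nat.card Gal(L/ℚ) : ℝ) - ε) (by linarith)
  unfold UD at h1
  push Not at h1
  obtain ⟨η, hη, h2⟩ := h1
  obtain ⟨x, h3, h4⟩ := (h2.and_eventually (eventually_ge_atTop (max x₀ 2))).exists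
  have hx2 : 2 ≤ x := (le_max_right _ _).trans h4
  have hx1 : (1 : ℝ) < x := by exact_mod_cast hx2
  have hl : 0 < Real.log x := Real.log_pos hx1
  refine ⟨x, (le_max_left _ _).trans h4, ?_⟩
  have h5 := Pool.Agent.H71.FD.th_le_cn (fun p => GC L C p ∧ ¬ B p) x
  rw [← mul_div_assoc, div_le_iff₀ hl]
  have h6 : ((C.ncard : ℝ) / (Nat.card Gal(L/ℚ) : ℝ) - ε) * x ≤ η * x :=
    mul_le_mul_of_nonneg_right hη.le (by linarith)
  linarith

variable {L}

/-- FROBENIUS DENSITY FOR A UNION OF DIVISIONS -/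
theorem upper_of_GC (C : Set Gal(L/ℚ)) (hC : ∀ g ∈ C, ∀ h : Gal(L/ℚ), Subgroup.zpowers h = Subgroup.zpowers g → h ∈ C)
    {B : ℕ → Prop} (hB : Null B) (S : Set ℕ)
    (hS : ∀ p : ℕ, p.Prime → 3 < p → ¬ (p : ℤ) ∣ NumberField.discr L →
      ∀ g ∈ C, (setE L (Subgroup.zpowers g) p).Nonempty → ¬ B p → p ∈ S) :
    UpperDensity S ((C.ncard : ℝ) / (Module.finrank ℚ L : ℝ)) := by
  intro ε hε x₀
  have hB' : Null (fun p => B p ∨ p ≤ 3) :=
    hB.or (Pool.Agent.H71.FD.Null_of_bounded 3 fun p _ hp => hp)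
  obtain ⟨x, hx, h⟩ := GC_count L C hC hB' ε hε x₀
  refine ⟨x, hx, ?_⟩
  have hcard : Nat.card Gal(L/ℚ) = Module.finrank ℚ L := IsGalois.card_aut_eq_finrank ℚ L
  rw [hcard] at h
  refine h.trans ?_
  rw [cn_eq_ncard]
  refine Nat.cast_le.2 (Set.ncard_le_ncard ?_ ?_)
  · rintro p ⟨hp, hpx, ⟨hd, g, hg, hE⟩, hnot⟩
    push Not at hnot
    exact ⟨hp, hpx, hS p hp hnot.2 hd g hg hE hnot.1⟩
  · exact (Set.finite_Iic x).subset fun p hp => hp.2.1

end Pool.Agent.H89.FrobD
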